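import Pool.Agent.H78.XQ.Defs

/-!
# Alternating exponential time in EQP and an infinite hierarchy: module targets
-/

set_option autoImplicit false

namespace Pool.Agent.H78.XQ

open Finset Pool.Agent.H6.NB Pool.Agent.H70.OQ Pool.Agent.H70.EH Pool.Agent.H70.EI
open Pool.Agent.H68.AC (PA Wt fd Ext ind)

/-! ## Part A: the quantum algorithm -/

/-- NRM: the states are unit vectors. -/
def T_NRM : Prop := ∀ (A : XAlg) (O : List Bool → Bool) (t : ℕ), ∑ i, ‖A.state O t i‖ ^ 2 = 1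

/-- POW: parallel repetition. -/
def T_POW : Prop := ∀ (A : XAlg) (R : ℕ) (O : List Bool → Bool), (pow A R).prob O = A.prob O ^ R

/-- MIX: a fair coin. -/
def T_MIX : Prop := ∀ A B : XAlg, A.T = B.T → ∀ O : List Bool → Bool,
  (mix A B).prob O = (A.prob O + B.prob O) / 2

/-- GRO: one Grover iteration. -/
def T_GRO : Prop := ∀ A : XAlg, 1 ≤ A.T → ∀ O : List Bool → Bool,
  (grov A).prob O = (3 - 4 * A.prob O) ^ 2 * A.prob O

/-- ONE: one run of the two-query circuit. -/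
def T_ONE : Prop := ∀ (O : List Bool → Bool) (s : List Bool), (one s).prob O = 1 - avg (qs s) (cps O s)

/-- COI: reading a random bit of the correction string. -/
def T_COI : Prop := ∀ (O : List Bool → Bool) (s : List Bool) (r : ℕ),
  (coin s r).prob O = (nt fun z : Fin r → Bool => O (wps s (List.ofFn z)) : ℝ) / 2 ^ r

/-- EXA: the algorithm is exact if the correction string fits. -/
def T_EXA : Prop := ∀ (O : List Bool → Bool) (s : List Bool) (b : Bool),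
  Fit (qs s) (rns s) (wln s) b (cps O s) (cst O s) → (exact s).prob O = if b then 1 else 0

/-- SIZ: the number of rounds and the number and length of the queries. -/
def T_SIZ : Prop := ∀ s : List Bool, (exact s).T = 6 ∧
  (exact s).Small (4 * 10 ^ 9 * (s.length + 1) ^ 4)

/-! ## Part B: the distribution of a block -/

/-- SWL: random restrictions turn a formula into a decision tree. -/
def T_SWL : Prop := ∀ (V : Type) [Fintype V] [DecidableEq V] (S d w : ℕ) (f : (V → Bool) → Bool),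
  1 ≤ w → Cl V S (d + 1) f → ∃ Bad : (Fin (d + 1) → PA V) → Prop,
    (∑ R, Wt (1 / (128 * (w : ℝ))) (1 / 2) R * ind (Bad R) ≤ ((S : ℝ) + 1) ^ (d + 1) / 2 ^ w) ∧
    ∀ R, ¬ Bad R → ∃ t : Pool.Agent.H68.AC.DT V, t.depth ≤ w ∧
      ∀ y, Ext (fd R (d + 1)) y → f y = t.eval y

/-- HOE: the numbers of stars and of ones of a random restriction. -/
def T_HOE : Prop := ∀ (V : Type) [Fintype V] [DecidableEq V] (D : ℕ) (q t : ℝ), 0 < q → q ≤ 1 →
  0 ≤ t → ∑ R : Fin D → PA V, Wt q (1 / 2) R * ind (¬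
    (|(nv (fd R D) none : ℝ) - q ^ D * Fintype.card V| ≤ t * Fintype.card V ∧
      |(nv (fd R D) (some true) : ℝ) - (1 - q ^ D) / 2 * Fintype.card V| ≤ t * Fintype.card V)) ≤
    4 * Real.exp (-(Fintype.card V * t ^ 2 / 4))

/-- CWS: the number of strings of weight `W` which extend `κ`. -/
def T_CWS : Prop := ∀ (V : Type) [Fintype V] [DecidableEq V] (κ : V → Option Bool) (W : ℕ),
  nv κ (some true) ≤ W → (ws κ W).card = (nv κ none).choose (W - nv κ (some true))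

/-- TRE: a decision tree on strings of given weight. -/
def T_TRE : Prop := ∀ (V : Type) [Fintype V] [DecidableEq V] (t : Pool.Agent.H68.AC.DT V)
  (κ : V → Option Bool) (W A : ℕ) (η : ℝ), 0 ≤ η → η ≤ 1 / 2 →
  nv κ (some true) + A + t.depth ≤ W → W + A + t.depth ≤ nv κ (some true) + nv κ none →
  (1 / 2 - η) * nv κ none ≤ A →
  (1 - 2 * η) ^ t.depth * mn (rst κ fun y => bi (t.eval y)) ≤ wm κ W fun y => bi (t.eval y)

/-- EXC: a random restriction filled with a string of weight `W`. -/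
def T_EXC : Prop := ∀ (V : Type) [Fintype V] [DecidableEq V] (D : ℕ) (q : ℝ) (W : ℕ)
  (F : (V → Bool) → ℝ), 0 ≤ q → q ≤ 1 → (∀ y, 0 ≤ F y) →
  ∑ R : Fin D → PA V, Wt q (1 / 2) R * wm (fd R D) W F ≤ wm (fun _ => none) W F

/-- HWT: a formula on strings of given weight. -/
def T_HWT : Prop := ∀ (V : Type) [Fintype V] [DecidableEq V] [Nonempty V] (S d w W : ℕ) (δ : ℝ)
  (f : (V → Bool) → Bool), 1 ≤ w → 0 ≤ δ → Cl V S (d + 1) f →
  |(W : ℝ) - Fintype.card V / 2| ≤ δ * Fintype.card V →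
  (1 - (12 * w * δ + 4 * w ^ 2 / Fintype.card V) * (128 * (w : ℝ)) ^ (d + 1)) *
      mn (fun y => bi (f y)) -
    (((S : ℝ) + 1) ^ (d + 1) / 2 ^ w + 4 * Real.exp (-(Fintype.card V * δ ^ 2 / 4))) ≤
  wm (fun _ => none) W fun y => bi (f y)

/-- ITG: the probability that no run has the outcome zero is a multiple of `2 ^ (-r)`. -/
def T_ITG : Prop := ∀ (l q R : ℕ) (P : (Fin (2 * l) → Bool) → VV q → Bool), ∃ K : ℕ,
  K ≤ 2 ^ (R * (2 * l + 3 * q)) ∧ kap q R P = K / 2 ^ (R * (2 * l + 3 * q))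

/-- The assumptions on the sizes: `r` scale, `l` length of the instance string, `q` number of qubits,
`R` number of runs, `n` length of the labels of the bits of the correction string. -/
structure Sz (r l q R n : ℕ) : Prop where
  r_ge : 20 ≤ r
  l_ge : 16 * r ^ 3 ≤ l
  l_le : l ≤ 16 * (r + 1) ^ 3
  q_eq : q = 10 * l + 100
  R_eq : R = 512 * (q + 3) ^ 2 * l
  n_eq : n = R * (2 * l + 3 * q)

/-- NUX: estimates for the error terms. -/
def T_NUX : Prop := ∀ r l q R n : ℕ, Sz r l q R n →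
  (1 / 4 : ℝ) ^ l ≤ (1 / 8) ^ r / 2 ∧
  (2 : ℝ) ^ 2 ^ r * Real.exp (-(2 ^ (2 * l) * (1 / 2 ^ l) / 2)) ≤ (1 / 8) ^ r / 16 ∧
  ((12 * (4 ^ r ^ 2 : ℕ) * (R / 2 ^ l) + 4 * (4 ^ r ^ 2 : ℕ) ^ 2 / 2 ^ n) *
    (128 * ((4 ^ r ^ 2 : ℕ) : ℝ)) ^ (r + 1 + 1) : ℝ) ≤ (1 / 8) ^ r / 8 ∧
  (2 : ℝ) ^ 2 ^ r * ((((2 ^ 2 ^ r ^ 2 : ℕ) : ℝ) + 1) ^ (r + 1 + 1) / 2 ^ 4 ^ r ^ 2 +
    4 * Real.exp (-(2 ^ n * (R / 2 ^ l) ^ 2 / 4))) ≤ (1 / 8) ^ r / 8

/-- HWX: a formula does not see the correction string. -/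
def T_HWX : Prop := ∀ r l q R n : ℕ, Sz r l q R n → ∀ (b : Bool)
  (P : (Fin (2 * l) → Bool) → VV q → Bool), SayX q l b P → ∃ W : ℕ,
    (W : ℝ) / 2 ^ n = (if b then 1 / 2 else 3 / 2) - kap q R P ∧ W ≤ 2 ^ n ∧
    ∀ B : ((Fin n → Bool) → Bool) → Bool, Cl (Fin n → Bool) (2 ^ 2 ^ r ^ 2) (r + 2) B →
      (1 - (1 / 8) ^ r / 8) * mn (fun h => bi (B h)) - (1 / 8) ^ r / (8 * 2 ^ 2 ^ r) ≤
        wm (fun _ => none) W fun h => bi (B h)

open Classical in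
/-- RIX: a formula does not see the copies. -/
def T_RIX : Prop := ∀ r l q R n : ℕ, Sz r l q R n → ∀ (b : Bool)
  (B : ((Fin (2 * l) → Bool) → VV q → Bool) → Bool),
  (∀ P u, Cl (VV q) (2 ^ 2 ^ r ^ 2) (r + 2) fun c => B (Function.update P u c)) →
  (1 - (1 / 8) ^ r / 8) * ∑ P, (∏ u, mv false q (P u)) * bi (B P) - (1 / 8) ^ r / (8 * 2 ^ 2 ^ r) ≤
    ∑ P, (if SayX q l b P then ∏ u, mv b q (P u) else 0) * bi (B P)

/-- BLX: a formula does not see the block. -/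
def T_BLX : Prop := ∀ r l q R n : ℕ, Sz r l q R n → ∀ (b : Bool)
  (B : ((Fin (2 * l) → Bool) → VV q → Bool) × ((Fin n → Bool) → Bool) → Bool),
  (∀ P u h, Cl (VV q) (2 ^ 2 ^ r ^ 2) (r + 2) fun c => B (Function.update P u c, h)) →
  (∀ P, Cl (Fin n → Bool) (2 ^ 2 ^ r ^ 2) (r + 2) fun h => B (P, h)) →
  (1 - (1 / 8) ^ r / 4) * ∑ c, m0 q l n c * bi (B c) - (1 / 8) ^ r / (4 * 2 ^ 2 ^ r) ≤
    ∑ c, mB q l R n b c * bi (B c)

/-- MAS: the total masses. -/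
def T_MAS : Prop := ∀ q l R n : ℕ, (∀ c, 0 ≤ m0 q l n c) ∧ ∑ c, m0 q l n c = 1 ∧
  ∀ b, (∀ c, 0 ≤ mB q l R n b c) ∧ ∑ c, mB q l R n b c ≤ 1

/-! ## Part C: the fixed point and the assembly -/

open Classical in
/-- FX3: the answers can be written into the oracle, with three distributions. -/
def T_FX3 : Prop := ∀ (I : Type) [Fintype I] [DecidableEq I] (T : I → Type) [∀ j, Fintype (T j)]
  (ord : I → ℕ) (m₀ : ∀ j, T j → ℝ) (m : Bool → ∀ j, T j → ℝ)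
  (f : (∀ j, T j) → I → Bool) (A : I → Prop) (ε τ : I → ℝ), Function.Injective ord →
  (∀ j p, 0 ≤ m₀ j p) → (∀ j, ∑ p, m₀ j p = 1) → (∀ b j p, 0 ≤ m b j p) →
  (∀ b j, ∑ p, m b j p ≤ 1) → (∀ j, 0 ≤ ε j) → (∀ j, 0 ≤ τ j) →
  (∀ j, A j → ∀ (κ : I → Bool) (P : ∀ j, T j),
    (1 - ε j) * ∑ p, m₀ j p *
      (if ∀ i, ord i ≤ ord j → f (Function.update P j p) i = κ i then 1 else 0) - τ j ≤
    ∑ p, m (κ j) j p *
      (if ∀ i, ord i ≤ ord j → f (Function.update P j p) i = κ i then 1 else 0)) →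
  (∀ j, ¬ A j → ∀ P : ∀ j, T j,
    (∀ i, ord i < ord j → ∀ p, f (Function.update P j p) i = f P i) ∧
    1 / 4 ≤ ∑ p, m (f (Function.update P j p) j) j p) →
  ∑ j, (ε j + 8 ^ (univ.filter fun i => ord i ≤ ord j).card * τ j) < 1 →
  ∃ P, ∀ j, 0 < m (f P j) j (P j)

/-- ISX: the oracle exists. -/
def T_ISX : Prop := ∀ (V : ℕ → ATM) (W : ℕ → Hm) (ρ : ℕ → ℕ), Rho W ρ → ∀ E : Finset Ix,
  ∃ O, IsX V W ρ E O

open Classical in
/-- BSX: the machine `W a` errs with probability at least `1 / 4`. -/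
def T_BSX : Prop := ∀ (V : ℕ → ATM) (W : ℕ → Hm) (ρ : ℕ → ℕ), Rho W ρ → ∀ (E : Finset Ix)
  (O : (∀ i : {a // a ∈ E}, Cx V W ρ i.1) → List Bool → Bool), IsX V W ρ E O →
  ∀ (P : ∀ i : {a // a ∈ E}, Cx V W ρ i.1) (a : ℕ) (h : Sum.inr a ∈ E),
  (1 / 4 : ℝ) ≤ ∑ c : Ct V W ρ (.inr a), (if ansr V W ρ (O (Function.update P ⟨.inr a, h⟩ c)) (.inr a)
    then 1 / (Fintype.card (Ct V W ρ (.inr a)) : ℝ) else 0)

/-- NOX: the answers of smaller indices do not depend on the table. -/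
def T_NOX : Prop := ∀ (V : ℕ → ATM) (W : ℕ → Hm) (ρ : ℕ → ℕ), Rho W ρ → ∀ (E : Finset Ix)
  (O : (∀ i : {a // a ∈ E}, Cx V W ρ i.1) → List Bool → Bool), IsX V W ρ E O →
  ∀ (P : ∀ i : {a // a ∈ E}, Cx V W ρ i.1) (a : ℕ) (h : Sum.inr a ∈ E) (i : Ix),
  key V ρ i ≤ ρ a → i ≠ .inr a → ∀ c : Ct V W ρ (.inr a),
    (ansr V W ρ (O (Function.update P ⟨.inr a, h⟩ c)) i ↔ ansr V W ρ (O P) i)

open Classical in
/-- ASX: the step of an instance. -/
def T_ASX : Prop := ∀ (V : ℕ → ATM) (W : ℕ → Hm) (ρ : ℕ → ℕ), Rho W ρ → ∀ (E : Finset Ix)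
  (O : (∀ i : {a // a ∈ E}, Cx V W ρ i.1) → List Bool → Bool), IsX V W ρ E O →
  ∀ (P : ∀ i : {a // a ∈ E}, Cx V W ρ i.1) (p : ℕ × List Bool) (h : Sum.inl p ∈ E)
    (J : Finset {a // a ∈ E}) (κ : {a // a ∈ E} → Bool) (b : Bool),
  (∀ i ∈ J, key V ρ i.1 ≤ key V ρ (.inl p)) →
  (1 - (1 / 8) ^ key V ρ (.inl p) / 4) *
    ∑ c : CP V p, m0 (qs (hm V p)) (hm V p).length (wln (hm V p)) c *
      (if ∀ i ∈ J, decide (ansr V W ρ (O (Function.update P ⟨.inl p, h⟩ c)) i.1) = κ i then 1 else 0) -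
    (1 / 8) ^ key V ρ (.inl p) / (4 * 2 ^ 2 ^ key V ρ (.inl p)) ≤
  ∑ c : CP V p, mB (qs (hm V p)) (hm V p).length (rns (hm V p)) (wln (hm V p)) b c *
      (if ∀ i ∈ J, decide (ansr V W ρ (O (Function.update P ⟨.inl p, h⟩ c)) i.1) = κ i then 1 else 0)

/-- SUM: the sum of the error bounds. -/
def T_SUM : Prop := ∀ (V : ℕ → ATM) (W : ℕ → Hm) (ρ : ℕ → ℕ), Rho W ρ → ∀ E : Finset Ix,
  ∑ i ∈ E, (match i with
    | .inl p => (1 / 8 : ℝ) ^ key V ρ (.inl p)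
    | .inr _ => 0) ≤ 1

/-- EX3: finitely many indices. -/
def T_EX3 : Prop := ∀ (V : ℕ → ATM) (W : ℕ → Hm) (ρ : ℕ → ℕ), Rho W ρ → ∀ E : Finset Ix,
  ∃ O, ∀ i ∈ E, goodX V W ρ O i

/-- DC3: the condition of an index depends on finitely many strings. -/
def T_DC3 : Prop := ∀ (V : ℕ → ATM) (W : ℕ → Hm) (ρ : ℕ → ℕ) (i : Ix), ∃ l,
  ∀ O O' : List Bool → Bool, (∀ w, w.length ≤ l → O w = O' w) →
    (goodX V W ρ O i ↔ goodX V W ρ O' i)

/-- FI3: the theorem. -/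
def T_FI3 : Prop := ∀ (V : ℕ → ATM) (W : ℕ → (k : ℕ) × Machine (k + 1)), ∃ O : List Bool → Bool,
  (∀ i x, (x ∈ (V i).lang O → (exact (home (V i) i x)).prob O = 1) ∧
    (x ∉ (V i).lang O → (exact (home (V i) i x)).prob O = 0)) ∧
  ∀ a, (W a).2.lang O ≠ plang ((W a).1 + 1) O

end Pool.Agent.H78.XQ
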