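import Pool.Agent.H78.XQ.Targets

/-!
# EX3: finitely many indices
-/

set_option autoImplicit false

namespace Pool.Agent.H78.XQ.EX3

open Finset Pool.Agent.H6.NB Pool.Agent.H70.OQ Pool.Agent.H70.EH Pool.Agent.H70.EI
open Pool.Agent.H78.XQ

theorem nonempty_hid {X : Type} {Y : ℕ → Type} [Nonempty X] [∀ i, Nonempty (Y i)] :
    ∀ k, Nonempty (Hid X Y k)
  | 0 => ⟨()⟩
  | k + 1 => by
    obtain ⟨h⟩ := nonempty_hid (X := X) (Y := Y) k
    exact ⟨(h, fun _ => Classical.arbitrary _)⟩

/-- The relative error of an index. -/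
noncomputable def ep (V : ℕ → ATM) (ρ : ℕ → ℕ) : Ix → ℝ
  | .inl p => (1 / 8) ^ key V ρ (.inl p) / 4
  | .inr _ => 0

/-- The absolute error of an index. -/
noncomputable def ta (V : ℕ → ATM) (ρ : ℕ → ℕ) : Ix → ℝ
  | .inl p => (1 / 8) ^ key V ρ (.inl p) / (4 * 2 ^ 2 ^ key V ρ (.inl p))
  | .inr _ => 0

theorem ep_nonneg (V : ℕ → ATM) (ρ : ℕ → ℕ) (i : Ix) : 0 ≤ ep V ρ i := by
  rcases i with p | a
  · unfold ep; positivity
  · exact le_rfl

theorem ta_nonneg (V : ℕ → ATM) (ρ : ℕ → ℕ) (i : Ix) : 0 ≤ ta V ρ i := by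
  rcases i with p | a
  · unfold ta; positivity
  · exact le_rfl

theorem card_tab (V : ℕ → ATM) (W : ℕ → Hm) (ρ : ℕ → ℕ) (a : ℕ) :
    (Fintype.card (Ct V W ρ (.inr a)) : ℝ) ≠ 0 := by
  have hne : Nonempty (Ct V W ρ (.inr a)) := by
    obtain ⟨H⟩ := nonempty_hid (X := Fin (2 ^ ρ a) → Bool) (Y := Ys (2 ^ ρ a)) ((W a).1 + 1)
    exact ⟨((true, H, fun _ => true) :
      Bool × Hid (Fin (2 ^ ρ a) → Bool) (Ys (2 ^ ρ a)) ((W a).1 + 1) × (Fin (2 ^ ρ a) → Bool))⟩
  exact_mod_cast Fintype.card_ne_zero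

theorem sum_tab (V : ℕ → ATM) (W : ℕ → Hm) (ρ : ℕ → ℕ) (a : ℕ) :
    ∑ _c : Ct V W ρ (.inr a), (1 : ℝ) / Fintype.card (Ct V W ρ (.inr a)) = 1 := by
  have hc := card_tab V W ρ a
  rw [Finset.sum_const, Finset.card_univ, nsmul_eq_mul]
  field_simp

theorem wg0_nonneg (V : ℕ → ATM) (W : ℕ → Hm) (ρ : ℕ → ℕ) (h : T_MAS) (i : Ix) (c : Cx V W ρ i) :
    0 ≤ wg0 V W ρ i c := by
  rcases i with p | a
  · exact (h _ _ (rns (hm V p)) _).1 c
  · simp only [wg0]
    positivity

theorem wg0_sum (V : ℕ → ATM) (W : ℕ → Hm) (ρ : ℕ → ℕ) (h : T_MAS) (i : Ix) :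
    ∑ c : Cx V W ρ i, wg0 V W ρ i c = 1 := by
  rcases i with p | a
  · exact (h _ _ (rns (hm V p)) _).2.1
  · exact sum_tab V W ρ a

theorem wgX_nonneg (V : ℕ → ATM) (W : ℕ → Hm) (ρ : ℕ → ℕ) (h : T_MAS) (b : Bool) (i : Ix)
    (c : Cx V W ρ i) : 0 ≤ wgX V W ρ b i c := by
  rcases i with p | a
  · exact ((h _ _ _ _).2.2 b).1 c
  · simp only [wgX]
    split_ifs
    · positivity
    · exact le_rfl

theorem wgX_sum (V : ℕ → ATM) (W : ℕ → Hm) (ρ : ℕ → ℕ) (h : T_MAS) (b : Bool) (i : Ix) :
    ∑ c : Cx V W ρ i, wgX V W ρ b i c ≤ 1 := by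
  rcases i with p | a
  · exact ((h _ _ _ _).2.2 b).2
  · cases b with
    | true => exact (sum_tab V W ρ a).le
    | false =>
      have : ∑ c : Cx V W ρ (.inr a), wgX V W ρ false (.inr a) c = 0 :=
        Finset.sum_eq_zero fun c _ => rfl
      rw [this]
      exact zero_le_one

theorem ex3 (h1 : T_FX3) (h2 : T_ASX) (h3 : T_BSX) (h4 : T_NOX) (h5 : T_ISX) (h7 : T_SUM)
    (h8 : T_MAS) (h6 : Pool.Agent.H70.EI.T_CNT) : T_EX3 := by
  classical
  intro V W ρ hρ E
  obtain ⟨O, hO⟩ := h5 V W ρ hρ E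
  let M := E.card
  let ord : {a // a ∈ E} → ℕ := fun i => key V ρ i.1 * (M + 1) + (E.equivFin i).1
  have hidx : ∀ i : {a // a ∈ E}, (E.equivFin i).1 < M + 1 := fun i =>
    Nat.lt_succ_of_lt (E.equivFin i).2
  have hord : Function.Injective ord := by
    intro i j hij
    have e1 : ord i % (M + 1) = (E.equivFin i).1 := by
      simp only [ord]
      rw [Nat.mul_comm, Nat.mul_add_mod, Nat.mod_eq_of_lt (hidx i)]
    have e2 : ord j % (M + 1) = (E.equivFin j).1 := by
      simp only [ord]
      rw [Nat.mul_comm, Nat.mul_add_mod, Nat.mod_eq_of_lt (hidx j)]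
    rw [hij, e2] at e1
    exact (E.equivFin.injective (Fin.ext e1)).symm
  have hkey : ∀ i j, ord i ≤ ord j → key V ρ i.1 ≤ key V ρ j.1 := by
    intro i j hij
    by_contra hlt
    have hlt' : key V ρ j.1 + 1 ≤ key V ρ i.1 := by omega
    have e1 := Nat.mul_le_mul_right (M + 1) hlt'
    have e2 := hidx j
    have e3 : ord j < (key V ρ j.1 + 1) * (M + 1) := by
      simp only [ord]
      rw [Nat.add_mul, Nat.one_mul]
      omega
    have e4 : key V ρ i.1 * (M + 1) ≤ ord i := Nat.le_add_right _ _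
    omega
  obtain ⟨P, hP⟩ := h1 {a // a ∈ E} (fun i => Cx V W ρ i.1) ord
    (fun i => wg0 V W ρ i.1) (fun b i => wgX V W ρ b i.1)
    (fun P i => decide (ansr V W ρ (O P) i.1)) (fun i => ∃ p, i.1 = .inl p)
    (fun i => ep V ρ i.1) (fun i => ta V ρ i.1) hord
    (fun i c => wg0_nonneg V W ρ h8 i.1 c) (fun i => wg0_sum V W ρ h8 i.1)
    (fun b i c => wgX_nonneg V W ρ h8 b i.1 c) (fun b i => wgX_sum V W ρ h8 b i.1)
    (fun i => ep_nonneg V ρ i.1) (fun i => ta_nonneg V ρ i.1)
    (by
      rintro ⟨i, hi⟩ ⟨p, hp⟩ κ P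
      obtain rfl : i = .inl p := hp
      have := h2 V W ρ hρ E O hO P p hi
        (univ.filter fun i => ord i ≤ ord ⟨.inl p, hi⟩) κ (κ ⟨.inl p, hi⟩)
        (fun i hi' => hkey i _ (Finset.mem_filter.1 hi').2)
      simp only [Finset.mem_filter, Finset.mem_univ, true_and] at this
      exact this)
    (by
      rintro ⟨i, hi⟩ hA P
      rcases i with p | a
      · exact absurd ⟨p, rfl⟩ hA
      · refine ⟨fun i hlt c => ?_, ?_⟩
        · have hk : key V ρ i.1 ≤ ρ a := hkey i ⟨.inr a, hi⟩ hlt.le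
          have hne : i.1 ≠ .inr a := by
            intro e
            have : i = ⟨.inr a, hi⟩ := Subtype.ext e
            rw [this] at hlt
            exact lt_irrefl _ hlt
          have := h4 V W ρ hρ E O hO P a hi i.1 hk hne c
          exact decide_eq_decide.2 this
        · have := h3 V W ρ hρ E O hO P a hi
          refine this.trans (le_of_eq ?_)
          refine Finset.sum_congr rfl fun c _ => ?_
          by_cases hh : ansr V W ρ (O (Function.update P ⟨.inr a, hi⟩ c)) (.inr a)
          · rw [if_pos hh]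
            have e : decide (ansr V W ρ (O (Function.update P ⟨.inr a, hi⟩ c)) (.inr a)) = true :=
              decide_eq_true hh
            show _ = wgX V W ρ (decide (ansr V W ρ (O (Function.update P ⟨.inr a, hi⟩ c))
              (.inr a))) (.inr a) c
            rw [e]
            rfl
          · rw [if_neg hh]
            have e : decide (ansr V W ρ (O (Function.update P ⟨.inr a, hi⟩ c)) (.inr a)) = false :=
              decide_eq_false hh
            show _ = wgX V W ρ (decide (ansr V W ρ (O (Function.update P ⟨.inr a, hi⟩ c))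
              (.inr a))) (.inr a) c
            rw [e]
            rfl)
    (by
      have hterm : ∀ i : {a // a ∈ E}, ep V ρ i.1 +
          8 ^ (univ.filter fun i' => ord i' ≤ ord i).card * ta V ρ i.1 ≤
          (match i.1 with
            | .inl p => (1 / 8 : ℝ) ^ key V ρ (.inl p)
            | .inr _ => 0) / 2 := by
        rintro ⟨i, hi⟩
        rcases i with p | a
        · have hr : 20 ≤ key V ρ (.inl p) := by
            simp only [Pool.Agent.H70.EI.key, scale]
            omega
          have hN : 3 * (univ.filter fun i' => ord i' ≤ ord ⟨.inl p, hi⟩).card ≤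
              2 ^ key V ρ (.inl p) := by
            have e1 : (univ.filter fun i' => ord i' ≤ ord ⟨.inl p, hi⟩).card ≤
                (E.filter fun i => key V ρ i ≤ key V ρ (.inl p)).card := by
              refine Finset.card_le_card_of_injOn (fun i => i.1) (fun i hi' => ?_)
                (fun i _ j _ hij => Subtype.ext hij)
              exact Finset.mem_coe.2 (Finset.mem_filter.2 ⟨i.2,
                hkey i _ (Finset.mem_filter.1 hi').2⟩)
            have e2 := h6 V W ρ hρ E (key V ρ (.inl p)) hr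
            omega
          have h8' : (8 : ℝ) ^ (univ.filter fun i' => ord i' ≤ ord ⟨.inl p, hi⟩).card ≤
              2 ^ 2 ^ key V ρ (.inl p) := by
            have : (8 : ℝ) = 2 ^ 3 := by norm_num
            rw [this, ← pow_mul]
            exact pow_le_pow_right₀ (by norm_num) hN
          have hta := ta_nonneg V ρ (.inl p)
          have hc := mul_le_mul_of_nonneg_right h8' hta
          have hd : (2 : ℝ) ^ 2 ^ key V ρ (.inl p) * ta V ρ (.inl p) =
              (1 / 8) ^ key V ρ (.inl p) / 4 := by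
            simp only [ta]
            generalize key V ρ (.inl p) = k
            have : (0 : ℝ) < 2 ^ 2 ^ k := by positivity
            field_simp
          change (1 / 8) ^ key V ρ (.inl p) / 4 +
            8 ^ (univ.filter fun i' => ord i' ≤ ord ⟨.inl p, hi⟩).card *
            ta V ρ (.inl p) ≤ (1 / 8 : ℝ) ^ key V ρ (.inl p) / 2
          linarith
        · change (0 : ℝ) + 8 ^ (univ.filter fun i' => ord i' ≤ ord ⟨.inr a, hi⟩).card * 0 ≤ 0 / 2
          simp
      have hgeo := h7 V W ρ hρ E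
      calc ∑ i : {a // a ∈ E}, (ep V ρ i.1 +
            8 ^ (univ.filter fun i' => ord i' ≤ ord i).card * ta V ρ i.1)
          ≤ ∑ i : {a // a ∈ E}, (match i.1 with
            | .inl p => (1 / 8 : ℝ) ^ key V ρ (.inl p)
            | .inr _ => 0) / 2 := Finset.sum_le_sum fun i _ => hterm i
        _ = (∑ i : {a // a ∈ E}, (match i.1 with
            | .inl p => (1 / 8 : ℝ) ^ key V ρ (.inl p)
            | .inr _ => 0)) / 2 := by rw [Finset.sum_div]
        _ = (∑ i ∈ E, (match i with
            | .inl p => (1 / 8 : ℝ) ^ key V ρ (.inl p)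
            | .inr _ => 0)) / 2 := by
              congr 1
              exact Finset.sum_coe_sort E (fun i : Ix => (match i with
                | .inl p => (1 / 8 : ℝ) ^ key V ρ (.inl p)
                | .inr _ => 0))
        _ ≤ 1 / 2 := div_le_div_of_nonneg_right hgeo (by norm_num)
        _ < 1 := by norm_num)
  refine ⟨O P, fun i hi => ?_⟩
  have hPi := hP ⟨i, hi⟩
  rcases i with p | a
  · have hPi' : 0 < mB (qs (hm V p)) (hm V p).length (rns (hm V p)) (wln (hm V p))
        (decide (p.2 ∈ (V p.1).lang (O P))) (P ⟨.inl p, hi⟩ : CP V p) := hPi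
    have hok : OkB (qs (hm V p)) (hm V p).length (rns (hm V p)) (wln (hm V p))
        (decide (p.2 ∈ (V p.1).lang (O P))) (P ⟨.inl p, hi⟩ : CP V p) := by
      by_contra hno
      unfold mB at hPi'
      rw [if_neg hno] at hPi'
      exact lt_irrefl _ hPi'
    have hb := hO.blk P p hi
    have hc := hO.cor P p hi
    change OkB (qs (hm V p)) (hm V p).length (rns (hm V p)) (wln (hm V p))
      (decide (p.2 ∈ (V p.1).lang (O P))) (cps (O P) (hm V p), cst (O P) (hm V p))
    rw [hb, hc]
    exact hok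
  · have hPi' : 0 < (if decide (ansr V W ρ (O P) (.inr a)) = true then
      (1 : ℝ) / Fintype.card (Ct V W ρ (.inr a)) else 0) := hPi
    change ansr V W ρ (O P) (.inr a)
    by_contra hno
    rw [if_neg (fun e => hno (of_decide_eq_true e))] at hPi'
    exact lt_irrefl _ hPi'

end Pool.Agent.H78.XQ.EX3
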