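import Pool.Agent.H78.XQ.Targets

/-!
# ASX: the step of an instance
-/

set_option autoImplicit false

namespace Pool.Agent.H78.XQ.ASX

open Finset Pool.Agent.H6.NB Pool.Agent.H70.OQ Pool.Agent.H70.EH Pool.Agent.H70.EI
open Pool.Agent.H78.XQ

theorem asx (hBLX : T_BLX) (h3 : Pool.Agent.H70.EI.T_ACL) (h4 : Pool.Agent.H70.EI.T_CNJ)
    (h5 : Pool.Agent.H70.EI.T_CNT) (h6 : Pool.Agent.H70.EI.T_HMX) : T_ASX := by
  classical
  intro V W ρ hρ E O hO P p h J κ b hJ
  have hr20 : 20 ≤ key V ρ (.inl p) := (h6.2.2 V ρ p).1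
  have hJc : J.card ≤ 2 ^ 2 ^ key V ρ (.inl p) ^ 2 := by
    have e1 : J.card ≤ (E.filter fun i => key V ρ i ≤ key V ρ (.inl p)).card := by
      refine Finset.card_le_card_of_injOn (fun i => i.1) (fun i hi => ?_)
        (fun i _ j _ hij => Subtype.ext hij)
      exact Finset.mem_coe.2 (Finset.mem_filter.2 ⟨i.2, hJ i hi⟩)
    have e2 := h5 V W ρ hρ E (key V ρ (.inl p)) hr20
    have e3 : (2 : ℕ) ^ key V ρ (.inl p) ≤ 2 ^ 2 ^ key V ρ (.inl p) ^ 2 := by
      refine Nat.pow_le_pow_right (by norm_num) ?_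
      have e4 : key V ρ (.inl p) ≤ key V ρ (.inl p) ^ 2 := Nat.le_self_pow (by norm_num) _
      exact e4.trans (Nat.lt_two_pow_self).le
    omega
  let B : CP V p → Bool := fun c =>
    decide (∀ i ∈ J, decide (ansr V W ρ (O (Function.update P ⟨.inl p, h⟩ c)) i.1) = κ i)
  have hform : ∀ (X : Type) (g : (X → Bool) → CP V p),
      (Lit fun c : X → Bool => O (Function.update P ⟨.inl p, h⟩ (g c))) →
      Cl X (2 ^ 2 ^ key V ρ (.inl p) ^ 2) (key V ρ (.inl p) + 2) fun c => B (g c) := by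
    intro X g hlit
    have := h4 X _ (2 ^ 2 ^ key V ρ (.inl p) ^ 2) (key V ρ (.inl p)) J
      (fun i c => decide (ansr V W ρ (O (Function.update P ⟨.inl p, h⟩ (g c))) i.1)) κ
      (Nat.pow_le_pow_right (by norm_num) (Nat.one_le_two_pow) : 2 ^ 1 ≤ 2 ^ 2 ^ _) hJc
      fun i hi => h3 V W ρ hρ _ _ _ i.1 hlit (hJ i hi)
    exact Eq.mpr (congrArg (Cl _ _ _) (funext fun c => decide_eq_decide.2 Iff.rfl)) this
  have hB1 : ∀ (P' : (Fin (2 * (hm V p).length) → Bool) → VV (qs (hm V p)) → Bool)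
      (u : Fin (2 * (hm V p).length) → Bool) (h' : (Fin (wln (hm V p)) → Bool) → Bool),
      Cl (VV (qs (hm V p))) (2 ^ 2 ^ key V ρ (.inl p) ^ 2) (key V ρ (.inl p) + 2)
      fun c => B (Function.update P' u c, h') := by
    intro P' u h'
    refine hform (VV (qs (hm V p))) (fun c => (Function.update P' u c, h')) ?_
    intro w
    have h9 := hO.blkU (Function.update P ⟨.inl p, h⟩ ((P', h') : CP V p)) p h u w
    have h0 : (Function.update P ⟨.inl p, h⟩ ((P', h') : CP V p)) ⟨.inl p, h⟩ = (P', h') :=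
      Function.update_self _ _ _
    rw [h0] at h9
    have h10 : ∀ c : VV (qs (hm V p)) → Bool, Function.update
        (Function.update P ⟨.inl p, h⟩ ((P', h') : CP V p)) ⟨.inl p, h⟩
          ((Function.update ((P', h') : CP V p).1 u c, ((P', h') : CP V p).2) : CP V p) =
        Function.update P ⟨.inl p, h⟩ ((Function.update P' u c, h') : CP V p) := fun c =>
      Function.update_idem _ _ _
    simp only [h10] at h9
    exact h9
  have hB2 : ∀ P' : (Fin (2 * (hm V p).length) → Bool) → VV (qs (hm V p)) → Bool,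
      Cl (Fin (wln (hm V p)) → Bool) (2 ^ 2 ^ key V ρ (.inl p) ^ 2) (key V ρ (.inl p) + 2)
      fun h' => B (P', h') := by
    intro P'
    refine hform (Fin (wln (hm V p)) → Bool) (fun h' => (P', h')) ?_
    intro w
    have h9 := hO.corU (Function.update P ⟨.inl p, h⟩ ((P', fun _ => false) : CP V p)) p h w
    have h0 : (Function.update P ⟨.inl p, h⟩ ((P', fun _ => false) : CP V p)) ⟨.inl p, h⟩ =
      (P', fun _ => false) := Function.update_self _ _ _
    rw [h0] at h9
    have h10 : ∀ c : (Fin (wln (hm V p)) → Bool) → Bool, Function.update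
        (Function.update P ⟨.inl p, h⟩ ((P', fun _ => false) : CP V p)) ⟨.inl p, h⟩
          ((((P', fun _ => false) : CP V p).1, c) : CP V p) =
        Function.update P ⟨.inl p, h⟩ ((P', c) : CP V p) := fun c =>
      Function.update_idem _ _ _
    simp only [h10] at h9
    exact h9
  have hSz : Sz (key V ρ (.inl p)) (hm V p).length (qs (hm V p)) (rns (hm V p)) (wln (hm V p)) :=
    ⟨hr20, (h6.2.2 V ρ p).2.1, (h6.2.2 V ρ p).2.2, rfl, rfl, rfl⟩
  have hcore := hBLX _ _ _ _ _ hSz b B hB1 hB2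
  have hif : ∀ c, bi (B c) = if ∀ i ∈ J, decide (ansr V W ρ
      (O (Function.update P ⟨.inl p, h⟩ c)) i.1) = κ i then (1 : ℝ) else 0 := by
    intro c
    unfold bi
    by_cases hh : ∀ i ∈ J, decide (ansr V W ρ (O (Function.update P ⟨.inl p, h⟩ c)) i.1) = κ i
    · rw [if_pos hh, if_pos (decide_eq_true hh)]
    · rw [if_neg hh, if_neg (fun e => hh (of_decide_eq_true e))]
  simp only [hif] at hcore
  exact hcore

end Pool.Agent.H78.XQ.ASX
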