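import Pool.Agent.H17.EI.BST
import Pool.Agent.H78.XQ.Targets

/-!
# BSX: the machine errs with probability at least 1 / 4
-/

set_option autoImplicit false

namespace Pool.Agent.H78.XQ.BSX

open Finset Pool.Agent.H6.NB Pool.Agent.H70.OQ Pool.Agent.H70.EH Pool.Agent.H70.EI
  Pool.Agent.H78.XQ Pool.Agent.H17.EI

/-- BSX: the machine `W a` errs with probability at least `1 / 4`. -/
theorem bsx (h1 : T_FML) (h2 : T_NDV) : T_BSX := by
  classical
  intro V W ρ hρ E O hO P a h
  -- the oracle in terms of the table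
  have hO2 : ∀ c : Ct V W ρ (.inr a), O (Function.update P ⟨.inr a, h⟩ c) =
      O2 (2 ^ ρ a) ((W a).1 + 1) (O P) (tb c) := by
    intro c
    funext w
    by_cases hw : ∃ x : Nn (2 ^ ρ a) ((W a).1 + 1), w = false :: nstr (2 ^ ρ a) ((W a).1 + 1) x
    · unfold O2
      rw [dif_pos hw]
      have h3 := hO.tab (Function.update P ⟨.inr a, h⟩ c) a h hw.choose
      rw [← hw.choose_spec] at h3
      rw [h3, Function.update_self]
    · unfold O2
      rw [dif_neg hw]
      rcases hO.tabU P a h w with h3 | h3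
      · exact h3 c
      · exact absurd h3 hw
  -- the formula
  obtain ⟨f, hf1, hf2⟩ := h1 (Nn (2 ^ ρ a) ((W a).1 + 1)) ((W a).1 + 1) (W a).2
    (O2 (2 ^ ρ a) ((W a).1 + 1) (O P)) (List.replicate (2 ^ ρ a) false)
    ((2 ^ ρ a) ^ (W a).2.c + (W a).2.c + 1) (by rw [List.length_replicate]; omega)
    (lit_O2 _ _ _)
  have hok := hρ.ok a f hf1
  have htb : ∀ (c : Ct V W ρ (.inr a)) (p : Nn (2 ^ ρ a) ((W a).1 + 1)),
      O (Function.update P ⟨.inr a, h⟩ c) (false :: nstr (2 ^ ρ a) ((W a).1 + 1) p) =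
        tb (n := 2 ^ ρ a) (k := (W a).1 + 1) c p := by
    intro c p
    rw [hO.tab _ a h p, Function.update_self]
  -- special rows
  have hpl : ∀ c : Ct V W ρ (.inr a), (List.replicate (2 ^ ρ a) false ∈
      plang ((W a).1 + 1) (O (Function.update P ⟨.inr a, h⟩ c)) ↔ c.1 = true) := by
    rintro ⟨b, H, x⟩
    have h3 : ∀ p : Nn (2 ^ ρ a) ((W a).1 + 1),
        O (Function.update P ⟨.inr a, h⟩ (b, H, x)) (false :: nstr (2 ^ ρ a) ((W a).1 + 1) p) =
        sv (fun x' => if b then !decide (x' = x) else true) ((W a).1 + 1) H p := by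
      intro p
      refine (htb (b, H, x) p).trans ?_
      cases b <;> rfl
    have h4 := h2 ((W a).1 + 1) (2 ^ ρ a) _ _ H h3
    constructor
    · rintro ⟨u, hu, hs⟩
      rw [List.length_replicate] at hu
      obtain ⟨x', rfl⟩ : ∃ x' : Fin (2 ^ ρ a) → Bool, List.ofFn x' = u := by
        have : ∀ (m : ℕ) (u : List Bool), u.length = m → ∃ x' : Fin m → Bool,
            List.ofFn x' = u := by
          rintro m u rfl
          exact ⟨u.get, List.ofFn_get u⟩
        exact this _ u hu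
      have h5 := (h4 x').1 hs
      cases b with
      | true => rfl
      | false => simp at h5
    · intro hb
      have hb' : b = true := hb
      subst hb'
      refine ⟨List.ofFn x, by rw [List.length_ofFn, List.length_replicate], ?_⟩
      rw [h4]
      simp
  -- the count
  have hNe : 0 < Fintype.card (Hid (Fin (2 ^ ρ a) → Bool) (Ys (2 ^ ρ a)) ((W a).1 + 1) ×
      (Fin (2 ^ ρ a) → Bool)) := by
    obtain ⟨H⟩ := hid_ne (2 ^ ρ a) ((W a).1 + 1)
    exact Fintype.card_pos_iff.2 ⟨(H, fun _ => false)⟩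
  have key := core (A := Hid (Fin (2 ^ ρ a) → Bool) (Ys (2 ^ ρ a)) ((W a).1 + 1) ×
      (Fin (2 ^ ρ a) → Bool)) (fun p => f (tabT ((W a).1 + 1) p.1))
    (fun p => f (tabU ((W a).1 + 1) p.1 p.2))
    (fun c => ansr V W ρ (O (Function.update P ⟨.inr a, h⟩ c)) (.inr a)) hNe hok fun b p => by
      show ¬ (_ ↔ _) ↔ _
      rw [hpl (b, p), hO2 (b, p), ← hf2]
      have e1 : f (tb (n := 2 ^ ρ a) (k := (W a).1 + 1) (b, p)) =
          (if b then f (tabU ((W a).1 + 1) p.1 p.2) else f (tabT ((W a).1 + 1) p.1)) := by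
        cases b <;> rfl
      rw [e1]
      show ¬ (_ ↔ b = true) ↔ _
      rw [not_iff_not]
      exact Bool.eq_iff_iff.symm
  exact key

end Pool.Agent.H78.XQ.BSX
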