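import Pool.Agent.H78.XQ.Targets

/-!
# FI3: the theorem
-/

set_option autoImplicit false

namespace Pool.Agent.H78.XQ.FI3

open Finset Filter Pool.Agent.H6.NB Pool.Agent.H70.OQ Pool.Agent.H70.EH Pool.Agent.H70.EI
open Pool.Agent.H78.XQ

theorem fi3 (h1 : T_EX3) (h2 : T_DC3) (h3 : Pool.Agent.H70.EI.T_RHO)
    (h4 : Pool.Agent.H70.EH.T_CMP) (h5 : T_EXA) : T_FI3 := by
  intro V W
  obtain ⟨ρ, hρ⟩ := h3 W
  obtain ⟨O, hO⟩ := h4 Ix (fun i O => goodX V W ρ O i) (h2 V W ρ) (h1 V W ρ hρ)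
  refine ⟨O, fun i x => ?_, fun a hEq => ?_⟩
  · classical
    have h := hO (.inl (i, x))
    have h' := h5 O (home (V i) i x) _ h.2
    refine ⟨fun hx => ?_, fun hx => ?_⟩
    · rw [h']
      exact if_pos (decide_eq_true hx)
    · rw [h']
      refine if_neg ?_
      intro e
      exact hx (of_decide_eq_true e)
  · have h := hO (.inr a)
    apply h
    rw [hEq]

end Pool.Agent.H78.XQ.FI3
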