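import Pool.Agent.H70.EH.RL2
import Pool.Agent.H78.XQ.Targets

/-!
# HWT: a formula on strings of given weight
-/

set_option autoImplicit false

namespace Pool.Agent.H78.XQ.HWT

open Finset Pool.Agent.H6.NB Pool.Agent.H70.OQ Pool.Agent.H70.EH Pool.Agent.H70.EI
open Pool.Agent.H78.XQ
open Pool.Agent.H68.AC (PA Wt fd Ext ind)

variable {V : Type} [Fintype V] [DecidableEq V]

theorem bi_01 (b : Bool) : 0 ≤ bi b ∧ bi b ≤ 1 := by
  cases b <;> simp [bi]

theorem mn_01 (F : (V → Bool) → ℝ) (h0 : ∀ y, 0 ≤ F y) (h1 : ∀ y, F y ≤ 1) :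
    0 ≤ mn F ∧ mn F ≤ 1 := by
  refine ⟨Pool.Agent.H70.EH.RL2.mn_nonneg F h0, ?_⟩
  unfold mn
  rw [div_le_one (by positivity)]
  calc ∑ y, F y ≤ ∑ _y : V → Bool, (1 : ℝ) := Finset.sum_le_sum fun y _ => h1 y
    _ = 2 ^ Fintype.card V := by
        rw [Finset.sum_const, Finset.card_univ, nsmul_eq_mul, mul_one, Fintype.card_fun,
          Fintype.card_bool]
        push_cast
        rfl

theorem wm_nonneg (κ : V → Option Bool) (W : ℕ) (F : (V → Bool) → ℝ) (h0 : ∀ y, 0 ≤ F y) :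
    0 ≤ wm κ W F := div_nonneg (Finset.sum_nonneg fun y _ => h0 y) (Nat.cast_nonneg _)

theorem ind_nonneg (P : Prop) : 0 ≤ ind P := by
  unfold ind
  split_ifs <;> norm_num

/-- the tree of a good restriction -/
theorem good (hTRE : T_TRE) (κ : V → Option Bool) (W w : ℕ) (f : (V → Bool) → Bool)
    (t : Pool.Agent.H68.AC.DT V) (ht : t.depth ≤ w) (hf : ∀ y, Ext κ y → f y = t.eval y)
    (M δ p η : ℝ) (hp : 0 < p) (hη0 : 0 ≤ η) (hδ : 0 ≤ δ) (hM : 0 < M)
    (hδp : δ ≤ p / 2) (hη : η * (p * M / 2) = 3 * δ * M + w) (hw : 2 * w * η < 1) (hw1 : 1 ≤ w)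
    (hW : |(W : ℝ) - M / 2| ≤ δ * M)
    (hm : |(nv κ none : ℝ) - p * M| ≤ δ * M)
    (ho : |(nv κ (some true) : ℝ) - (1 - p) / 2 * M| ≤ δ * M) :
    (1 - 2 * w * η) * mn (rst κ fun y => bi (f y)) ≤ wm κ W fun y => bi (f y) := by
  obtain ⟨hW1, hW2⟩ := abs_le.1 hW
  obtain ⟨hm1, hm2⟩ := abs_le.1 hm
  obtain ⟨ho1, ho2⟩ := abs_le.1 ho
  have hwr : (1 : ℝ) ≤ w := by exact_mod_cast hw1
  have hη2 : η ≤ 1 / 2 := by nlinarith
  have hδM : 0 ≤ δ * M := mul_nonneg hδ hM.le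
  have hmp : p * M / 2 ≤ (nv κ none : ℝ) := by
    have : δ * M ≤ p / 2 * M := mul_le_mul_of_nonneg_right hδp hM.le
    linarith
  have hηm : 3 * δ * M + w ≤ η * (nv κ none : ℝ) := by
    rw [← hη]
    exact mul_le_mul_of_nonneg_left hmp hη0
  have hm0 : (0 : ℝ) ≤ nv κ none := Nat.cast_nonneg _
  have hhalf : η * (nv κ none : ℝ) ≤ 1 / 2 * nv κ none := mul_le_mul_of_nonneg_right hη2 hm0
  have hk1 : (nv κ none : ℝ) / 2 - 3 * δ * M ≤ (W : ℝ) - nv κ (some true) := by linarith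
  have hk2 : (nv κ none : ℝ) / 2 - 3 * δ * M ≤
      (nv κ (some true) : ℝ) + nv κ none - W := by linarith
  have hn1 : nv κ (some true) + w ≤ W := by
    have : (nv κ (some true) : ℝ) + w ≤ W := by linarith
    exact_mod_cast this
  have hn2 : W + w ≤ nv κ (some true) + nv κ none := by
    have : (W : ℝ) + w ≤ nv κ (some true) + nv κ none := by linarith
    exact_mod_cast this
  obtain ⟨A, hA⟩ : ∃ A, A = min (W - nv κ (some true)) (nv κ (some true) + nv κ none - W) - w :=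
    ⟨_, rfl⟩
  have hA1 : nv κ (some true) + A + w ≤ W := by
    have := Nat.min_le_left (W - nv κ (some true)) (nv κ (some true) + nv κ none - W)
    omega
  have hA2 : W + A + w ≤ nv κ (some true) + nv κ none := by
    have := Nat.min_le_right (W - nv κ (some true)) (nv κ (some true) + nv κ none - W)
    omega
  have hA3 : (1 / 2 - η) * (nv κ none : ℝ) ≤ A := by
    rcases min_choice (W - nv κ (some true)) (nv κ (some true) + nv κ none - W) with h | h
    · rw [h] at hA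
      have h1 : A + w + nv κ (some true) = W := by omega
      have h2 : (A : ℝ) + w + nv κ (some true) = W := by exact_mod_cast h1
      linarith
    · rw [h] at hA
      have h1 : A + w + W = nv κ (some true) + nv κ none := by omega
      have h2 : (A : ℝ) + w + W = nv κ (some true) + nv κ none := by exact_mod_cast h1
      linarith
  have h1 := hTRE V t κ W A η hη0 hη2 (by omega) (by omega) hA3
  have h2 : (rst κ fun y => bi (f y)) = rst κ fun y => bi (t.eval y) := by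
    funext y
    unfold rst
    simp only
    rw [hf]
    intro v b hv
    simp [hv]
  have h3 : (wm κ W fun y => bi (f y)) = wm κ W fun y => bi (t.eval y) := by
    unfold wm
    congr 1
    refine Finset.sum_congr rfl fun y hy => ?_
    have hE : Ext κ y := by
      unfold ws at hy
      simp only [Finset.mem_filter] at hy
      exact hy.2.1
    show bi (f y) = bi (t.eval y)
    rw [hf y hE]
  rw [h2, h3]
  refine le_trans (mul_le_mul_of_nonneg_right ?_ ?_) h1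
  · have h4 : (1 - 2 * η) ^ w ≤ (1 - 2 * η) ^ t.depth :=
      pow_le_pow_of_le_one (by linarith) (by linarith) ht
    have h5 := one_add_mul_le_pow (show (-2 : ℝ) ≤ -(2 * η) by linarith) w
    have h6 : (1 : ℝ) + w * -(2 * η) = 1 - 2 * w * η := by ring
    have h7 : (1 : ℝ) + -(2 * η) = 1 - 2 * η := by ring
    rw [h6, h7] at h5
    exact h5.trans h4
  · exact Pool.Agent.H70.EH.RL2.mn_nonneg _ fun y => (bi_01 _).1

theorem hwt (hSWL : T_SWL) (hHOE : T_HOE) (hTRE : T_TRE) (hEXC : T_EXC) : T_HWT := by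
  intro V _ _ _ S d w W δ f hw hδ hf hW
  obtain ⟨Bad, hBad, hGood⟩ := hSWL V S d w f hw hf
  have hwr : (1 : ℝ) ≤ w := by exact_mod_cast hw
  have hM : (0 : ℝ) < Fintype.card V := by exact_mod_cast Fintype.card_pos
  obtain ⟨M, hMe⟩ : ∃ M : ℝ, M = Fintype.card V := ⟨_, rfl⟩
  obtain ⟨q, hq⟩ : ∃ q : ℝ, q = 1 / (128 * (w : ℝ)) := ⟨_, rfl⟩
  obtain ⟨L, hL⟩ : ∃ L : ℝ, L = (128 * (w : ℝ)) ^ (d + 1) := ⟨_, rfl⟩
  have hq0 : 0 < q := by rw [hq]; positivity
  have hq1 : q ≤ 1 := by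
    rw [hq, div_le_one (by positivity)]
    linarith
  have hL1 : 1 ≤ L := by
    rw [hL]
    exact one_le_pow₀ (by linarith)
  have hLp : L * q ^ (d + 1) = 1 := by
    rw [hL, ← mul_pow, hq]
    have : 128 * (w : ℝ) * (1 / (128 * w)) = 1 := by field_simp
    rw [this, one_pow]
  have hH := hHOE V (d + 1) q δ hq0 hq1 hδ
  rw [← hq] at hBad
  rw [← hMe] at hW hM hH ⊢
  rw [← hL]
  obtain ⟨F, hF⟩ : ∃ F : (V → Bool) → ℝ, F = fun y => bi (f y) := ⟨_, rfl⟩
  have hF0 : ∀ y, 0 ≤ F y := fun y => by rw [hF]; exact (bi_01 _).1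
  have hF1 : ∀ y, F y ≤ 1 := fun y => by rw [hF]; exact (bi_01 _).2
  have hmF := mn_01 F hF0 hF1
  have hwm := wm_nonneg (fun _ => none) W F hF0
  have hexp : 0 ≤ 4 * Real.exp (-(M * δ ^ 2 / 4)) := by positivity
  have hS0 : 0 ≤ ((S : ℝ) + 1) ^ (d + 1) / 2 ^ w := by positivity
  rw [← hF]
  by_cases hε : 1 ≤ (12 * w * δ + 4 * w ^ 2 / M) * L
  · have : (1 - (12 * w * δ + 4 * w ^ 2 / M) * L) * mn F ≤ 0 :=
      mul_nonpos_of_nonpos_of_nonneg (by linarith) hmF.1
    linarith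
  push Not at hε
  obtain ⟨p, hp⟩ : ∃ p : ℝ, p = q ^ (d + 1) := ⟨_, rfl⟩
  rw [← hp] at hLp hH
  have hp0 : 0 < p := by rw [hp]; positivity
  obtain ⟨η, hη⟩ : ∃ η : ℝ, η = (6 * δ + 2 * w / M) * L := ⟨_, rfl⟩
  have hη0 : 0 ≤ η := by rw [hη]; positivity
  have hεη : (12 * w * δ + 4 * w ^ 2 / M) * L = 2 * w * η := by
    rw [hη]
    field_simp
    ring
  rw [hεη] at hε ⊢
  have hδp : δ ≤ p / 2 := by
    have h1 : 12 * w * δ * L ≤ 2 * w * η := by
      rw [← hεη]
      have : 0 ≤ 4 * (w : ℝ) ^ 2 / M := by positivity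
      exact mul_le_mul_of_nonneg_right (by linarith) (by linarith)
    have h2 : 12 * δ * L ≤ 12 * w * δ * L := by
      have : 0 ≤ δ * L := mul_nonneg hδ (by linarith)
      nlinarith
    have h3 : δ * L ≤ 1 / 12 := by linarith
    have h4 : δ = δ * L * p := by rw [mul_assoc, hLp, mul_one]
    rw [h4]
    have := mul_le_mul_of_nonneg_right h3 hp0.le
    linarith
  have hηM : η * (p * M / 2) = 3 * δ * M + w := by
    rw [hη]
    have h1 : (6 * δ + 2 * w / M) * L * (p * M / 2) = (6 * δ + 2 * w / M) * (M / 2) * (L * p) := by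
      ring
    rw [h1, hLp]
    field_simp
    ring
  have hpt : ∀ R : Fin (d + 1) → PA V, (1 - 2 * w * η) * mn (rst (fd R (d + 1)) F) -
      (ind (Bad R) + ind (¬ (|(nv (fd R (d + 1)) none : ℝ) - p * M| ≤ δ * M ∧
        |(nv (fd R (d + 1)) (some true) : ℝ) - (1 - p) / 2 * M| ≤ δ * M))) ≤
      wm (fd R (d + 1)) W F := by
    intro R
    have hr := mn_01 (rst (fd R (d + 1)) F) (fun y => hF0 _) (fun y => hF1 _)
    have hw0 := wm_nonneg (fd R (d + 1)) W F hF0
    have hη3 : 0 ≤ 2 * w * η := by positivity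
    have hle : (1 - 2 * w * η) * mn (rst (fd R (d + 1)) F) ≤ 1 := by nlinarith [hr.1, hr.2]
    by_cases h1 : Bad R
    · have e1 : ind (Bad R) = 1 := by unfold ind; rw [if_pos h1]
      have e2 := ind_nonneg (¬ (|(nv (fd R (d + 1)) none : ℝ) - p * M| ≤ δ * M ∧
        |(nv (fd R (d + 1)) (some true) : ℝ) - (1 - p) / 2 * M| ≤ δ * M))
      linarith
    by_cases h2 : |(nv (fd R (d + 1)) none : ℝ) - p * M| ≤ δ * M ∧
        |(nv (fd R (d + 1)) (some true) : ℝ) - (1 - p) / 2 * M| ≤ δ * M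
    · have e1 := ind_nonneg (Bad R)
      have e2 := ind_nonneg (¬ (|(nv (fd R (d + 1)) none : ℝ) - p * M| ≤ δ * M ∧
        |(nv (fd R (d + 1)) (some true) : ℝ) - (1 - p) / 2 * M| ≤ δ * M))
      obtain ⟨t, ht, hft⟩ := hGood R h1
      have h3 := good hTRE (fd R (d + 1)) W w f t ht hft M δ p η hp0 hη0 hδ hM hδp hηM hε hw hW
        h2.1 h2.2
      rw [← hF] at h3
      linarith
    · have e1 := ind_nonneg (Bad R)
      have e2 : ind (¬ (|(nv (fd R (d + 1)) none : ℝ) - p * M| ≤ δ * M ∧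
        |(nv (fd R (d + 1)) (some true) : ℝ) - (1 - p) / 2 * M| ≤ δ * M)) = 1 := by
        unfold ind
        rw [if_pos h2]
      linarith
  have hW0 : ∀ R : Fin (d + 1) → PA V, 0 ≤ Wt q (1 / 2) R := fun R =>
    Pool.Agent.H90.AC.Wt_nonneg hq0.le hq1 (by norm_num) (by norm_num) R
  have hsum := Finset.sum_le_sum fun (R : Fin (d + 1) → PA V) (_ : R ∈ univ) =>
    mul_le_mul_of_nonneg_left (hpt R) (hW0 R)
  have hE := hEXC V (d + 1) q W F hq0.le hq1 hF0
  have hmn := Pool.Agent.H70.EH.RL2.sum_mn (d + 1) q F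
  have e : ∑ R : Fin (d + 1) → PA V, Wt q (1 / 2) R *
      ((1 - 2 * w * η) * mn (rst (fd R (d + 1)) F) -
      (ind (Bad R) + ind (¬ (|(nv (fd R (d + 1)) none : ℝ) - p * M| ≤ δ * M ∧
        |(nv (fd R (d + 1)) (some true) : ℝ) - (1 - p) / 2 * M| ≤ δ * M)))) =
      (1 - 2 * w * η) * (∑ R : Fin (d + 1) → PA V, Wt q (1 / 2) R * mn (rst (fd R (d + 1)) F)) -
      (∑ R : Fin (d + 1) → PA V, Wt q (1 / 2) R * ind (Bad R) +
        ∑ R : Fin (d + 1) → PA V, Wt q (1 / 2) R *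
          ind (¬ (|(nv (fd R (d + 1)) none : ℝ) - p * M| ≤ δ * M ∧
        |(nv (fd R (d + 1)) (some true) : ℝ) - (1 - p) / 2 * M| ≤ δ * M))) := by
    rw [Finset.mul_sum, ← Finset.sum_add_distrib, ← Finset.sum_sub_distrib]
    refine Finset.sum_congr rfl fun R _ => ?_
    ring
  rw [e, hmn] at hsum
  linarith

end Pool.Agent.H78.XQ.HWT
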