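import Pool.Agent.H78.XQ.Targets

/-!
# ISX: the oracle exists
-/

set_option autoImplicit false

open Finset Filter Pool.Agent.H6.NB Pool.Agent.H70.OQ Pool.Agent.H70.EH Pool.Agent.H70.EI
open Pool.Agent.H78.XQ

namespace Pool.Agent.H78.XQ.ISX

section

variable (V : ℕ → ATM) (W : ℕ → Hm) (ρ : ℕ → ℕ) (E : Finset Ix)

/-- the positions of the correction strings -/
abbrev Wp : Type := Σ p : {p : ℕ × List Bool // Sum.inl p ∈ E}, Fin (wln (hm V p.1)) → Bool

/-- the string of a position of a correction string -/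
def cs (q : Wp V E) : List Bool := wps (hm V q.1.1) (List.ofFn q.2)

/-- the value at a position of a correction string -/
def wv (P : ∀ i : {a // a ∈ E}, Cx V W ρ i.1) (q : Wp V E) : Bool :=
  (P ⟨.inl q.1.1, q.1.2⟩ : CP V q.1.1).2 q.2

/-- forget the correction strings -/
def fs (P : ∀ i : {a // a ∈ E}, Cx V W ρ i.1) : ∀ i : {a // a ∈ E}, Ct V W ρ i.1
  | ⟨.inl p, h⟩ => (P ⟨.inl p, h⟩ : CP V p).1
  | ⟨.inr a, h⟩ => (P ⟨.inr a, h⟩ : Ct V W ρ (.inr a))

open Classical in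
/-- the oracle -/
noncomputable def Ox (O' : (∀ i : {a // a ∈ E}, Ct V W ρ i.1) → List Bool → Bool)
    (P : ∀ i : {a // a ∈ E}, Cx V W ρ i.1) (w : List Bool) : Bool :=
  if h : ∃ q : Wp V E, w = cs V E q then wv V W ρ E P h.choose else O' (fs V W ρ E P) w

variable {V W ρ E}

theorem cs_inj (h1 : T_HMX) (h2 : Pool.Agent.H6.NB.T_COD) {q q' : Wp V E}
    (h : cs V E q = cs V E q') : q = q' := by
  obtain ⟨⟨p, hp⟩, z⟩ := q
  obtain ⟨⟨p', hp'⟩, z'⟩ := q'
  obtain ⟨h3, h4, -⟩ := h2.1 _ _ _ _ _ _ h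
  have hj : p = p' := h1.1 V p p' h3
  subst hj
  have hz : z = z' := List.ofFn_injective h4
  subst hz
  rfl

theorem Ox_cs (h1 : T_HMX) (h2 : Pool.Agent.H6.NB.T_COD)
    (O' : (∀ i : {a // a ∈ E}, Ct V W ρ i.1) → List Bool → Bool)
    (P : ∀ i : {a // a ∈ E}, Cx V W ρ i.1) (q : Wp V E) :
    Ox V W ρ E O' P (cs V E q) = wv V W ρ E P q := by
  unfold Ox
  have hx : ∃ q' : Wp V E, cs V E q = cs V E q' := ⟨q, rfl⟩
  rw [dif_pos hx]
  have hs := hx.choose_spec
  rw [← cs_inj h1 h2 hs]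

theorem Ox_ne (O' : (∀ i : {a // a ∈ E}, Ct V W ρ i.1) → List Bool → Bool)
    (P : ∀ i : {a // a ∈ E}, Cx V W ρ i.1) {w : List Bool} (h : ¬ ∃ q : Wp V E, w = cs V E q) :
    Ox V W ρ E O' P w = O' (fs V W ρ E P) w := by
  unfold Ox
  rw [dif_neg h]

theorem fs_inl (P : ∀ i : {a // a ∈ E}, Cx V W ρ i.1) (p : ℕ × List Bool) (h : Sum.inl p ∈ E) :
    fs V W ρ E P ⟨.inl p, h⟩ = (P ⟨.inl p, h⟩ : CP V p).1 := rfl

theorem fs_upd (P : ∀ i : {a // a ∈ E}, Cx V W ρ i.1) (p : ℕ × List Bool) (h : Sum.inl p ∈ E)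
    (c : CP V p) : fs V W ρ E (Function.update P ⟨.inl p, h⟩ c) =
      Function.update (fs V W ρ E P) ⟨.inl p, h⟩ c.1 := by
  funext i
  obtain ⟨i, hi⟩ := i
  rcases i with p' | a
  · by_cases hp : p' = p
    · subst hp
      rw [Function.update_self, fs_inl, Function.update_self]
    · have hne : (⟨.inl p', hi⟩ : {a // a ∈ E}) ≠ ⟨.inl p, h⟩ := fun e =>
        hp (Sum.inl.inj (Subtype.mk.inj e))
      rw [Function.update_of_ne hne, fs_inl, fs_inl, Function.update_of_ne hne]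
  · have hne : (⟨.inr a, hi⟩ : {a // a ∈ E}) ≠ ⟨.inl p, h⟩ := fun e =>
      Sum.inr_ne_inl (Subtype.mk.inj e)
    rw [Function.update_of_ne hne]
    show Function.update P ⟨.inl p, h⟩ c ⟨.inr a, hi⟩ = P ⟨.inr a, hi⟩
    rw [Function.update_of_ne hne]

theorem fs_upr (P : ∀ i : {a // a ∈ E}, Cx V W ρ i.1) (a : ℕ) (h : Sum.inr a ∈ E)
    (c : Ct V W ρ (.inr a)) : fs V W ρ E (Function.update P ⟨.inr a, h⟩ c) =
      Function.update (fs V W ρ E P) ⟨.inr a, h⟩ c := by
  funext i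
  obtain ⟨i, hi⟩ := i
  rcases i with p' | a'
  · have hne : (⟨.inl p', hi⟩ : {a // a ∈ E}) ≠ ⟨.inr a, h⟩ := fun e =>
      Sum.inl_ne_inr (Subtype.mk.inj e)
    rw [Function.update_of_ne hne, fs_inl, fs_inl, Function.update_of_ne hne]
  · by_cases ha : a' = a
    · subst ha
      rw [Function.update_self]
      show Function.update P ⟨.inr a', h⟩ c ⟨.inr a', hi⟩ = c
      rw [Function.update_self]
    · have hne : (⟨.inr a', hi⟩ : {a // a ∈ E}) ≠ ⟨.inr a, h⟩ := fun e =>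
        ha (Sum.inr.inj (Subtype.mk.inj e))
      rw [Function.update_of_ne hne]
      show Function.update P ⟨.inr a, h⟩ c ⟨.inr a', hi⟩ = P ⟨.inr a', hi⟩
      rw [Function.update_of_ne hne]

theorem pos_ne (h2 : Pool.Agent.H6.NB.T_COD) (s u v : List Bool) (b : Bool) :
    ¬ ∃ q : Wp V E, pos s u v b = cs V E q := by
  rintro ⟨q, h⟩
  obtain ⟨-, -, h3⟩ := h2.1 _ _ _ _ _ _ h
  have := Bool.toNat_le b
  omega

theorem code_true (x y : List Bool) (i : ℕ) (h : 0 < x.length) : ∃ w, code x y i = true :: w := by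
  cases x with
  | nil => simp at h
  | cons b l => exact ⟨b :: (dbl l ++ false :: (dbl y ++ false :: List.replicate i true)), rfl⟩

theorem tab_ne (h1 : T_HMX) (w : List Bool) : ¬ ∃ q : Wp V E, false :: w = cs V E q := by
  rintro ⟨⟨⟨p, hp⟩, z⟩, h⟩
  have h3 : 0 < (hm V p).length := by
    obtain ⟨h5, h4, -⟩ := h1.2.2 V (fun _ => 0) p
    generalize Pool.Agent.H70.EI.key V (fun _ => 0) (.inl p) = k at h4 h5
    have h6 : 1 ≤ k ^ 3 := Nat.one_le_pow _ _ (by omega)
    generalize k ^ 3 = m at h4 h6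
    exact lt_of_lt_of_le (by omega) h4
  obtain ⟨w', hw'⟩ := code_true (hm V p) (List.ofFn z) 2 h3
  have h7 : false :: w = code (hm V p) (List.ofFn z) 2 := h
  rw [hw'] at h7
  exact absurd (List.cons.inj h7).1 (by simp)

end

theorem isx (h0 : Pool.Agent.H70.EI.T_ISO) (h1 : Pool.Agent.H70.EI.T_HMX)
    (h2 : Pool.Agent.H6.NB.T_COD) : T_ISX := by
  intro V W ρ hρ E
  obtain ⟨O', hO'⟩ := h0 V W ρ hρ E
  refine ⟨Ox V W ρ E O', ⟨?_, ?_, ?_, ?_, ?_, ?_⟩⟩
  · intro P p h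
    funext u
    have h3 := hO'.blk (fs V W ρ E P) p h u
    rw [fs_inl] at h3
    rw [← h3]
    funext v
    exact Ox_ne O' P (pos_ne h2 _ _ _ _)
  · intro P p h
    funext z
    exact Ox_cs h1 h2 O' P ⟨⟨p, h⟩, z⟩
  · intro P a h x
    rw [Ox_ne O' P (tab_ne h1 _)]
    exact hO'.tab (fs V W ρ E P) a h x
  · intro P p h u w
    by_cases hw : ∃ q : Wp V E, w = cs V E q
    · obtain ⟨q, rfl⟩ := hw
      left
      refine ⟨wv V W ρ E P q, fun c => ?_⟩
      rw [Ox_cs h1 h2]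
      unfold wv
      by_cases hp : q.1.1 = p
      · obtain ⟨⟨p', hp'⟩, z⟩ := q
        subst hp
        simp only
        rw [Function.update_self]
      · rw [Function.update_of_ne (fun e => hp (Sum.inl.inj (Subtype.mk.inj e)))]
    · have h3 := hO'.blkU (fs V W ρ E P) p h u w
      rw [fs_inl] at h3
      have h4 : ∀ c : VV (qs (hm V p)) → Bool, Ox V W ρ E O' (Function.update P ⟨.inl p, h⟩
          ((Function.update (P ⟨.inl p, h⟩ : CP V p).1 u c, (P ⟨.inl p, h⟩ : CP V p).2) : CP V p)) w =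
          O' (Function.update (fs V W ρ E P) ⟨.inl p, h⟩
            (Function.update (P ⟨.inl p, h⟩ : CP V p).1 u c)) w := by
        intro c
        rw [Ox_ne O' _ hw, fs_upd]
      simp only [h4]
      exact h3
  · intro P p h w
    by_cases hw : ∃ q : Wp V E, w = cs V E q
    · obtain ⟨⟨⟨p', hp'⟩, z⟩, rfl⟩ := hw
      by_cases hp : p' = p
      · subst hp
        right
        refine ⟨z, fun c => ?_⟩
        rw [Ox_cs h1 h2]
        unfold wv
        simp only
        rw [Function.update_self]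
      · left
        refine ⟨wv V W ρ E P ⟨⟨p', hp'⟩, z⟩, fun c => ?_⟩
        rw [Ox_cs h1 h2]
        unfold wv
        simp only
        rw [Function.update_of_ne (fun e => hp (Sum.inl.inj (Subtype.mk.inj e)))]
    · left
      refine ⟨O' (fs V W ρ E P) w, fun c => ?_⟩
      rw [Ox_ne O' _ hw, fs_upd]
      congr 1
      have h5 : (P ⟨.inl p, h⟩ : CP V p).1 = fs V W ρ E P ⟨.inl p, h⟩ := rfl
      simp only
      rw [h5, Function.update_eq_self]
  · intro P a h w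
    by_cases hw : ∃ q : Wp V E, w = cs V E q
    · obtain ⟨q, rfl⟩ := hw
      left
      intro c
      rw [Ox_cs h1 h2, Ox_cs h1 h2]
      unfold wv
      rw [Function.update_of_ne (fun e => Sum.inl_ne_inr (Subtype.mk.inj e))]
    · rcases hO'.tabU (fs V W ρ E P) a h w with h3 | h3
      · left
        intro c
        rw [Ox_ne O' _ hw, Ox_ne O' _ hw, fs_upr]
        exact h3 c
      · exact Or.inr h3

end Pool.Agent.H78.XQ.ISX
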