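import Pool.Agent.H78.XQ.Targets

/-!
# NOX: the answers of smaller indices do not depend on the table
-/

set_option autoImplicit false

namespace Pool.Agent.H78.XQ.NOX

open Finset Filter Pool.Agent.H6.NB Pool.Agent.H70.OQ Pool.Agent.H70.EH Pool.Agent.H70.EI
  Pool.Agent.H78.XQ

theorem nox (h1 : T_LOA) (h2 : Pool.Agent.H70.OQ.T_NST) : T_NOX := by
  intro V W ρ hρ E O hO P a h i hi hne c
  have h12 : ∀ w : List Bool, w.length ≤ 2 ^ ρ a →
      O (Function.update P ⟨.inr a, h⟩ c) w = O P w := by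
    intro w hw
    rcases hO.tabU P a h w with h3 | ⟨x, h3⟩
    · exact h3 c
    · exfalso
      have h4 := (h2 (2 ^ ρ a) ((W a).1 + 1)).1 x
      rw [h3, List.length_cons, h4] at hw
      have h5 : 1 ≤ 2 ^ ((W a).1 + 1 + 1) - 1 := by
        have : 2 ^ 1 ≤ 2 ^ ((W a).1 + 1 + 1) := Nat.pow_le_pow_right (by norm_num) (by omega)
        omega
      have h6 : 1 * 2 ^ ρ a ≤ (2 ^ ((W a).1 + 1 + 1) - 1) * 2 ^ ρ a := Nat.mul_le_mul_right _ h5
      omega
  refine h1 V W ρ i (2 ^ ρ a) ?_ _ _ h12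
  match i, hi, hne with
  | .inl p, hi, _ =>
    simp only [Pool.Agent.H70.EI.key, scale] at hi
    show (V p.1).time p.2.length ≤ 2 ^ ρ a
    have h7 := Nat.lt_pow_succ_log_self (b := 2) (by norm_num) ((V p.1).time p.2.length)
    exact h7.le.trans (Nat.pow_le_pow_right (by norm_num) (by omega))
  | .inr b, hi, hne =>
    simp only [Pool.Agent.H70.EI.key] at hi
    have h8 : b ≠ a := fun h => hne (by rw [h])
    have h9 : b < a := lt_of_le_of_ne (hρ.mono.le_iff_le.1 hi) h8
    exact (hρ.sep b a h9).le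

end Pool.Agent.H78.XQ.NOX
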