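import Pool.Agent.H70.EI.All
import Pool.Agent.H13.XQ.NUX
import Pool.Agent.H16.XQ.EXA
import Pool.Agent.H2.XQ.MIX
import Pool.Agent.H20.XQ.DC3
import Pool.Agent.H20.XQ.MAS
import Pool.Agent.H3.XQ.HWX
import Pool.Agent.H3.XQ.RIX
import Pool.Agent.H33.XQ.SWL
import Pool.Agent.H4.XQ.EXC
import Pool.Agent.H4.XQ.GRO
import Pool.Agent.H4.XQ.HOE
import Pool.Agent.H47.XQ.SIZ
import Pool.Agent.H47.XQ.SUM
import Pool.Agent.H48.XQ.POW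
import Pool.Agent.H51.XQ.TRE
import Pool.Agent.H58.XQ.BLX
import Pool.Agent.H59.XQ.ONE
import Pool.Agent.H71.XQ.NRM
import Pool.Agent.H78.XQ.ASX
import Pool.Agent.H78.XQ.BSX
import Pool.Agent.H78.XQ.EX3
import Pool.Agent.H78.XQ.FI3
import Pool.Agent.H78.XQ.FX3
import Pool.Agent.H78.XQ.HWT
import Pool.Agent.H78.XQ.ISX
import Pool.Agent.H78.XQ.NOX
import Pool.Agent.H89.XQ.ITG
import Pool.Agent.H91.XQ.COI
import Pool.Agent.H91.XQ.CWS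

/-!
# Assembly of the modules
-/

set_option autoImplicit false

namespace Pool.Agent.H78.XQ

open Pool.Agent.H70.EI

theorem pf_NRM : T_NRM := Pool.Agent.H71.XQ.nrm

theorem pf_POW : T_POW := Pool.Agent.H48.XQ.pow_prob

theorem pf_MIX : T_MIX := Pool.Agent.H2.XQ.mix

theorem pf_GRO : T_GRO := Pool.Agent.H4.XQ.gro pf_NRM

theorem pf_ONE : T_ONE := Pool.Agent.H59.XQ.one pf_FOX_EH pf_NRM

theorem pf_COI : T_COI := Pool.Agent.H91.XQ.coi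

theorem pf_EXA : T_EXA := Pool.Agent.H16.XQ.exa pf_POW pf_MIX pf_GRO pf_ONE pf_COI

theorem pf_SIZ : T_SIZ := Pool.Agent.H47.XQ.siz pf_COD_NB

theorem pf_SWL : T_SWL := Pool.Agent.H33.XQ.swl pf_CKT_NB

theorem pf_HOE : T_HOE := Pool.Agent.H4.XQ.hoe

theorem pf_CWS : T_CWS := Pool.Agent.H91.XQ.cws

theorem pf_TRE : T_TRE := Pool.Agent.H51.XQ.tre pf_CWS

theorem pf_EXC : T_EXC := Pool.Agent.H4.XQ.exc

theorem pf_HWT : T_HWT := HWT.hwt pf_SWL pf_HOE pf_TRE pf_EXC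

theorem pf_ITG : T_ITG := itg pf_PHB_NB

theorem pf_NUX : T_NUX := Pool.Agent.H13.XQ.nux pf_NU2

theorem pf_HWX : T_HWX := Pool.Agent.H3.XQ.hwx pf_HWT pf_ITG pf_NUX

theorem pf_RIX : T_RIX := Pool.Agent.H3.XQ.rix pf_RDI_EH pf_RCP_EH pf_CHA_EH pf_PHV_EH pf_MUV_EH
  pf_PHB_NB pf_PHU_NB pf_RL2_EH pf_CLR_NB pf_NU2 pf_NUX

theorem pf_BLX : T_BLX := Pool.Agent.H58.XQ.blx pf_HWX pf_RIX pf_MUV_EH

theorem pf_MAS : T_MAS := Pool.Agent.H20.XQ.mas pf_MUV_EH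

theorem pf_FX3 : T_FX3 := FX3.fx3

theorem pf_ISX : T_ISX := ISX.isx pf_ISO pf_HMX pf_COD_NB

theorem pf_ASX : T_ASX := ASX.asx pf_BLX pf_ACL pf_CNJ pf_CNT pf_HMX

theorem pf_SUM : T_SUM := Pool.Agent.H47.XQ.sum pf_CNT

theorem pf_DC3 : T_DC3 := Pool.Agent.H20.XQ.dc3 pf_LOA pf_COD_NB

theorem pf_BSX : T_BSX := BSX.bsx pf_FML pf_NDV_OQ

theorem pf_NOX : T_NOX := NOX.nox pf_LOA pf_NST_OQ

theorem pf_EX3 : T_EX3 := EX3.ex3 pf_FX3 pf_ASX pf_BSX pf_NOX pf_ISX pf_SUM pf_MAS pf_CNT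

theorem pf_FI3 : T_FI3 := FI3.fi3 pf_EX3 pf_DC3 pf_RHO pf_CMP_EH pf_EXA

end Pool.Agent.H78.XQ
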