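import Pool.Agent.H70.EI.Stmt

/-!
# An oracle relative to which alternating exponential time is contained in EQP and the polynomial
hierarchy is infinite: definitions

EQP: exact quantum polynomial time (the acceptance probability is exactly `1` or exactly `0`). The
alternating oracle machines `ATM`, the strings `home`, `pos`, the languages `plang` and the Hadamard
transforms `hadI`, `hadX` are those of `Pool.Agent.H70.EI.Stmt` and the files it imports.
-/

set_option autoImplicit false

namespace Pool.Agent.H78.XQ

open Pool.Agent.H6.NB Pool.Agent.H70.OQ Pool.Agent.H70.EH Pool.Agent.H70.EI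
open scoped Matrix

/-! ### Quantum algorithms with parallel queries -/

/-- A quantum query algorithm with `T` rounds of parallel queries. The computational basis `basis` is
finite; in each round the basis state `i` queries all strings of the list `query i`, and it is
multiplied by `-1` for every string of the list which belongs to the oracle. The algorithm starts in
the unit vector `init`, applies the unitary `U 0`, and then `T` times a round of queries followed by
`U t`, `t = 1, …, T`; finally it measures in the computational basis and accepts iff the outcome lies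
in `acc`. -/
structure XAlg where
  /-- the computational basis -/
  basis : Type
  [fin : Fintype basis]
  [dec : DecidableEq basis]
  /-- the strings queried by each basis state -/
  query : basis → List (List Bool)
  /-- number of rounds of queries -/
  T : ℕ
  /-- the operations between the queries -/
  U : ℕ → Matrix basis basis ℂ
  unitary : ∀ t, U t ∈ Matrix.unitaryGroup basis ℂ
  /-- the initial state -/
  init : basis → ℂ
  norm_init : ∑ i, ‖init i‖ ^ 2 = 1
  /-- the accepting basis states -/
  acc : Finset basis

attribute [instance] XAlg.fin XAlg.dec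

namespace XAlg

variable (A : XAlg)

/-- The phase by which the oracle `O` multiplies the basis state `i` in one round. -/
noncomputable def phase (O : List Bool → Bool) (i : A.basis) : ℂ :=
  ((A.query i).map fun w => if O w then (-1 : ℂ) else 1).prod

/-- The state after `t` rounds. -/
noncomputable def state (O : List Bool → Bool) : ℕ → (A.basis → ℂ)
  | 0 => A.U 0 *ᵥ A.init
  | t + 1 => A.U (t + 1) *ᵥ fun i => A.phase O i * state O t i

/-- The acceptance probability. -/
noncomputable def prob (O : List Bool → Bool) : ℝ := ∑ i ∈ A.acc, ‖A.state O A.T i‖ ^ 2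

/-- In each round at most `m` strings of length at most `m` are queried. -/
def Small (m : ℕ) : Prop := ∀ i, (A.query i).length ≤ m ∧ ∀ w ∈ A.query i, w.length ≤ m

end XAlg

/-! ### Parallel repetition -/

/-- The tensor power of a matrix. -/
def tpow {B : Type} [Fintype B] [DecidableEq B] (R : ℕ) (M : Matrix B B ℂ) :
    Matrix (Fin R → B) (Fin R → B) ℂ := Matrix.of fun z z' => ∏ i, M (z i) (z' i)

theorem tpow_unitary {B : Type} [Fintype B] [DecidableEq B] (R : ℕ) {M : Matrix B B ℂ}
    (h : M ∈ Matrix.unitaryGroup B ℂ) : tpow R M ∈ Matrix.unitaryGroup (Fin R → B) ℂ := by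
  rw [Matrix.mem_unitaryGroup_iff] at h ⊢
  ext z z'
  rw [Matrix.mul_apply, Matrix.one_apply]
  have h1 : ∀ y : Fin R → B, tpow R M z y * star (tpow R M) y z' =
      ∏ i, (M (z i) (y i) * star M (y i) (z' i)) := by
    intro y
    simp only [tpow, Matrix.star_apply, Matrix.of_apply]
    rw [star_prod, ← Finset.prod_mul_distrib]
  rw [Finset.sum_congr rfl fun y _ => h1 y]
  rw [← Fintype.prod_sum (fun (i : Fin R) (y : B) => M (z i) y * star M y (z' i))]
  have h2 : ∀ i, ∑ y, M (z i) y * star M y (z' i) = if z i = z' i then 1 else 0 := by
    intro i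
    have h3 := congrFun (congrFun h (z i)) (z' i)
    rw [Matrix.mul_apply, Matrix.one_apply] at h3
    exact h3
  rw [Finset.prod_congr rfl fun i _ => h2 i]
  by_cases hz : z = z'
  · subst hz
    simp
  · rw [if_neg hz]
    obtain ⟨i, hi⟩ := Function.ne_iff.1 hz
    exact Finset.prod_eq_zero (Finset.mem_univ i) (if_neg hi)

/-- `R` independent runs of the algorithm `A` in parallel; accept iff all runs accept. -/
noncomputable def pow (A : XAlg) (R : ℕ) : XAlg where
  basis := Fin R → A.basis
  query := fun z => (List.ofFn fun i => A.query (z i)).flatten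
  T := A.T
  U := fun t => tpow R (A.U t)
  unitary := fun t => tpow_unitary R (A.unitary t)
  init := fun z => ∏ i, A.init (z i)
  norm_init := by
    have h1 : ∀ z : Fin R → A.basis, ‖∏ i, A.init (z i)‖ ^ 2 = ∏ i, ‖A.init (z i)‖ ^ 2 := by
      intro z
      rw [norm_prod, Finset.prod_pow]
    rw [Finset.sum_congr rfl fun z _ => h1 z,
      ← Fintype.prod_sum (fun (_ : Fin R) (y : A.basis) => ‖A.init y‖ ^ 2)]
    simp [A.norm_init]
  acc := Finset.univ.filter fun z => ∀ i, z i ∈ A.acc

/-! ### A fair coin -/

/-- With probability `1/2` each run `A` or `B` (both have the same number of rounds). -/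
noncomputable def mix (A B : XAlg) : XAlg where
  basis := A.basis ⊕ B.basis
  query := Sum.elim A.query B.query
  T := A.T
  U := fun t => Matrix.fromBlocks (A.U t) 0 0 (B.U t)
  unitary := fun t => by
    have h1 := Matrix.mem_unitaryGroup_iff.1 (A.unitary t)
    have h2 := Matrix.mem_unitaryGroup_iff.1 (B.unitary t)
    rw [Matrix.star_eq_conjTranspose] at h1 h2
    rw [Matrix.mem_unitaryGroup_iff, Matrix.star_eq_conjTranspose,
      Matrix.fromBlocks_conjTranspose, Matrix.fromBlocks_multiply]
    simp [h1, h2]
  init := Sum.elim (fun i => A.init i / √2) fun i => B.init i / √2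
  norm_init := by
    have h2 : (√2 : ℝ) ^ 2 = 2 := Real.sq_sqrt (by norm_num)
    have h1 : ∀ x : ℂ, ‖x / (√2 : ℝ)‖ ^ 2 = ‖x‖ ^ 2 / 2 := by
      intro x
      rw [norm_div, div_pow, Complex.norm_real, Real.norm_eq_abs, sq_abs, h2]
    rw [Fintype.sum_sum_type]
    simp only [Sum.elim_inl, Sum.elim_inr, h1]
    rw [← Finset.sum_div, ← Finset.sum_div, A.norm_init, B.norm_init]
    norm_num
  acc := A.acc.disjSum B.acc

/-! ### One Grover iteration -/

/-- The reflection which multiplies the accepting basis states by `-1`. -/
def rfl1 (A : XAlg) : Matrix A.basis A.basis ℂ := Matrix.diagonal fun i => if i ∈ A.acc then -1 else 1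

/-- The reflection at the initial state. -/
noncomputable def rfl2 (A : XAlg) : Matrix A.basis A.basis ℂ :=
  Matrix.of fun i j => 2 * (A.init i * star (A.init j)) - if i = j then 1 else 0

theorem rfl1_unitary (A : XAlg) : rfl1 A ∈ Matrix.unitaryGroup A.basis ℂ := by
  rw [Matrix.mem_unitaryGroup_iff, rfl1, Matrix.star_eq_conjTranspose, Matrix.diagonal_conjTranspose,
    Matrix.diagonal_mul_diagonal]
  ext i j
  rw [Matrix.diagonal_apply, Matrix.one_apply]
  by_cases h : i = j
  · rw [if_pos h, if_pos h]
    by_cases hi : i ∈ A.acc <;> simp [hi]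
  · rw [if_neg h, if_neg h]

theorem sum_init (A : XAlg) : ∑ i, star (A.init i) * A.init i = 1 := by
  have h := A.norm_init
  have h1 : ∀ i, star (A.init i) * A.init i = ((‖A.init i‖ ^ 2 : ℝ) : ℂ) := by
    intro i
    rw [Complex.star_def, mul_comm, Complex.mul_conj, Complex.normSq_eq_norm_sq]
  rw [Finset.sum_congr rfl fun i _ => h1 i, ← Complex.ofReal_sum, h, Complex.ofReal_one]

theorem rfl2_unitary (A : XAlg) : rfl2 A ∈ Matrix.unitaryGroup A.basis ℂ := by
  rw [Matrix.mem_unitaryGroup_iff]
  ext i j
  rw [Matrix.mul_apply, Matrix.one_apply]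
  have h1 : ∀ k, rfl2 A i k * star (rfl2 A) k j =
      4 * (A.init i * star (A.init j)) * (star (A.init k) * A.init k) -
        2 * (A.init i * star (A.init k)) * (if j = k then 1 else 0) -
        2 * (A.init k * star (A.init j)) * (if i = k then 1 else 0) +
        (if i = k then 1 else 0) * (if j = k then 1 else 0) := by
    intro k
    simp only [rfl2, Matrix.star_apply, Matrix.of_apply, star_sub, star_mul', star_star]
    have h2 : star (2 : ℂ) = 2 := by simp
    have h3 : ∀ a b : A.basis, star (if a = b then (1 : ℂ) else 0) = if a = b then 1 else 0 := by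
      intro a b
      split_ifs <;> simp
    rw [h2, h3]
    ring
  rw [Finset.sum_congr rfl fun k _ => h1 k, Finset.sum_add_distrib, Finset.sum_sub_distrib,
    Finset.sum_sub_distrib, ← Finset.mul_sum, sum_init]
  simp only [mul_ite, mul_one, mul_zero, Finset.sum_ite_eq, Finset.mem_univ, if_true]
  by_cases h : i = j
  · subst h
    simp
    ring
  · simp [h]
    ring

/-- One Grover iteration: run `A`, multiply the accepting states by `-1`, run `A` backwards, reflect at
the initial state, run `A`. -/
noncomputable def grov (A : XAlg) : XAlg where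
  basis := A.basis
  query := A.query
  T := 3 * A.T
  U := fun t =>
    if t < A.T then A.U t
    else if t = A.T then (A.U A.T)ᴴ * rfl1 A * A.U A.T
    else if t < 2 * A.T then (A.U (2 * A.T - t))ᴴ
    else if t = 2 * A.T then A.U 0 * rfl2 A * (A.U 0)ᴴ
    else A.U (t - 2 * A.T)
  unitary := fun t => by
    have hs : ∀ s, (A.U s)ᴴ ∈ Matrix.unitaryGroup A.basis ℂ := fun s => by
      have := Unitary.star_mem (A.unitary s)
      exact this
    split_ifs
    · exact A.unitary _
    · exact mul_mem (mul_mem (hs _) (rfl1_unitary A)) (A.unitary _)
    · exact hs _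
    · exact mul_mem (mul_mem (A.unitary _) (rfl2_unitary A)) (hs _)
    · exact A.unitary _
  init := A.init
  norm_init := A.norm_init
  acc := A.acc

/-! ### The exact quantum algorithm -/

/-- A unitary of `q + 1` qubits, next to `l` qubits which are left alone. -/
def lab (l q : ℕ) (M : Matrix ((Fin q → Bool) × Bool) ((Fin q → Bool) × Bool) ℂ) :
    Matrix ((Fin l → Bool) × (Fin q → Bool) × Bool) ((Fin l → Bool) × (Fin q → Bool) × Bool) ℂ :=
  Matrix.of fun i j => if i.1 = j.1 then M i.2 j.2 else 0

theorem lab_unitary (l q : ℕ) {M : Matrix ((Fin q → Bool) × Bool) ((Fin q → Bool) × Bool) ℂ}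
    (h : M ∈ Matrix.unitaryGroup ((Fin q → Bool) × Bool) ℂ) :
    lab l q M ∈ Matrix.unitaryGroup ((Fin l → Bool) × (Fin q → Bool) × Bool) ℂ := by
  rw [Matrix.mem_unitaryGroup_iff] at h ⊢
  ext i j
  rw [Matrix.mul_apply, Fintype.sum_prod_type, Matrix.one_apply]
  have h1 : ∀ x, ∑ y, lab l q M i (x, y) * star (lab l q M) (x, y) j =
      if x = i.1 then (if i.1 = j.1 then ∑ y, M i.2 y * star M y j.2 else 0) else 0 := by
    intro x
    simp only [lab, Matrix.star_apply, Matrix.of_apply]
    by_cases hx : x = i.1
    · subst hx
      by_cases hj : i.1 = j.1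
      · simp [hj]
      · have hj' : ¬ j.1 = i.1 := fun e => hj e.symm
        simp [hj, hj']
    · have hx' : ¬ i.1 = x := fun e => hx e.symm
      simp [hx, hx']
  rw [Finset.sum_congr rfl fun x _ => h1 x, Finset.sum_ite_eq' Finset.univ i.1,
    if_pos (Finset.mem_univ _)]
  have h2 : ∑ y, M i.2 y * star M y j.2 = if i.2 = j.2 then 1 else 0 := by
    have h3 := congrFun (congrFun h i.2) j.2
    rw [Matrix.mul_apply, Matrix.one_apply] at h3
    exact h3
  rw [h2]
  by_cases hi : i.1 = j.1
  · by_cases hj : i.2 = j.2
    · rw [if_pos hi, if_pos hj, if_pos (Prod.ext hi hj)]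
    · rw [if_pos hi, if_neg hj, if_neg (fun e => hj (by rw [e]))]
  · rw [if_neg hi, if_neg (fun e => hi (by rw [e]))]

/-- One run: choose a uniformly random string `u` of length `2 |s|` (the first register), and run the
two-query circuit for the copy `u` of the instance `s`: start with `q = qs s` qubits in the state zero,
Hadamard transform, query the first function, Hadamard transform, query the second function, Hadamard
transform; accept iff the `q` qubits are NOT all zero. (The last qubit says which function is
queried.) -/
noncomputable def one (s : List Bool) : XAlg where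
  basis := (Fin (2 * s.length) → Bool) × (Fin (qs s) → Bool) × Bool
  query := fun z => [pos s (List.ofFn z.1) (List.ofFn z.2.1) z.2.2]
  T := 2
  U := fun t => lab (2 * s.length) (qs s) (if t = 1 then hadX (qs s) else hadI (qs s))
  unitary := fun t => by
    refine lab_unitary _ _ ?_
    split_ifs
    · exact hadX_unitary _
    · exact hadI_unitary _
  init := fun z => if z.2 = (fun _ => false, false) then ((1 / √(2 ^ (2 * s.length)) : ℝ) : ℂ) else 0
  norm_init := by
    have h0 : (0 : ℝ) < 2 ^ (2 * s.length) := by positivity
    rw [Fintype.sum_prod_type]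
    have h1 : ∀ x : Fin (2 * s.length) → Bool, ∑ y : (Fin (qs s) → Bool) × Bool,
        ‖(if (x, y).2 = ((fun _ => false, false) : (Fin (qs s) → Bool) × Bool) then
          ((1 / √(2 ^ (2 * s.length)) : ℝ) : ℂ) else 0)‖ ^ 2 = 1 / 2 ^ (2 * s.length) := by
      intro x
      rw [Finset.sum_eq_single ((fun _ => false, false) : (Fin (qs s) → Bool) × Bool)]
      · rw [if_pos rfl, Complex.norm_real, Real.norm_eq_abs, sq_abs, div_pow, one_pow,
          Real.sq_sqrt h0.le]
      · intro b _ hb
        rw [if_neg hb]
        simp
      · simp
    rw [Finset.sum_congr rfl fun x _ => h1 x, Finset.sum_const, Finset.card_univ, nsmul_eq_mul]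
    rw [Fintype.card_fun, Fintype.card_bool, Fintype.card_fin]
    push_cast
    field_simp
  acc := Finset.univ.filter fun z => z.2.1 ≠ fun _ => false

/-- The Hadamard gate for the last qubit. -/
noncomputable def hdl (r : ℕ) : Matrix ((Fin r → Bool) × Bool) ((Fin r → Bool) × Bool) ℂ :=
  Matrix.of fun i j => if i.1 = j.1 then (((if i.2 && j.2 then -1 else 1) / √2 : ℝ) : ℂ) else 0

theorem hdl_unitary (r : ℕ) : hdl r ∈ Matrix.unitaryGroup ((Fin r → Bool) × Bool) ℂ := by
  have h2 : (√2 : ℝ) * √2 = 2 := Real.mul_self_sqrt (by norm_num)
  have hb : ∀ a b : Bool, ∑ y : Bool, ((if a && y then (-1 : ℝ) else 1) / √2) *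
      ((if b && y then (-1 : ℝ) else 1) / √2) = if a = b then 1 else 0 := by
    intro a b
    rw [Fintype.sum_bool, div_mul_div_comm, div_mul_div_comm, h2]
    cases a <;> cases b <;> norm_num
  rw [Matrix.mem_unitaryGroup_iff]
  ext i j
  rw [Matrix.mul_apply, Fintype.sum_prod_type, Matrix.one_apply]
  have h1 : ∀ x, ∑ y, hdl r i (x, y) * star (hdl r) (x, y) j =
      if x = i.1 then (if i.1 = j.1 then (((if i.2 = j.2 then 1 else 0) : ℝ) : ℂ) else 0) else 0 := by
    intro x
    simp only [hdl, Matrix.star_apply, Matrix.of_apply]
    by_cases hx : x = i.1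
    · subst hx
      by_cases hj : i.1 = j.1
      · simp only [hj, if_true]
        rw [← hb i.2 j.2, Complex.ofReal_sum]
        refine Finset.sum_congr rfl fun y _ => ?_
        rw [Complex.star_def, Complex.conj_ofReal, ← Complex.ofReal_mul]
      · have hj' : ¬ j.1 = i.1 := fun e => hj e.symm
        simp [hj, hj']
    · have hx' : ¬ i.1 = x := fun e => hx e.symm
      simp [hx, hx']
  rw [Finset.sum_congr rfl fun x _ => h1 x, Finset.sum_ite_eq' Finset.univ i.1,
    if_pos (Finset.mem_univ _)]
  by_cases hi : i.1 = j.1
  · by_cases hj : i.2 = j.2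
    · rw [if_pos hi, if_pos hj, if_pos (Prod.ext hi hj)]
      simp
    · rw [if_pos hi, if_neg hj, if_neg (fun e => hj (by rw [e]))]
      simp
  · rw [if_neg hi, if_neg (fun e => hi (by rw [e]))]

/-- The position of the bit number `z` of the correction string of the instance `s`. -/
def wps (s z : List Bool) : List Bool := code s z 2

/-- Choose a uniformly random string `z` of length `r` and accept iff the oracle contains `wps s z`: the
basis state `(z, b)` queries `wps s z` if `b` is true, the initial state is the uniform superposition,
after the first round a Hadamard gate is applied to the last qubit, which is the output. (The second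
round has no effect on the output.) -/
noncomputable def coin (s : List Bool) (r : ℕ) : XAlg where
  basis := (Fin r → Bool) × Bool
  query := fun z => if z.2 then [wps s (List.ofFn z.1)] else []
  T := 2
  U := fun t => if t = 1 then hdl r else 1
  unitary := fun t => by
    split_ifs
    · exact hdl_unitary _
    · exact one_mem _
  init := fun _ => ((1 / √(2 ^ (r + 1)) : ℝ) : ℂ)
  norm_init := by
    have h0 : (0 : ℝ) < 2 ^ (r + 1) := by positivity
    rw [Finset.sum_const, Finset.card_univ, nsmul_eq_mul, Complex.norm_real, Real.norm_eq_abs, sq_abs,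
      div_pow, one_pow, Real.sq_sqrt h0.le, Fintype.card_prod, Fintype.card_fun, Fintype.card_bool,
      Fintype.card_fin]
    push_cast
    rw [pow_succ]
    field_simp
  acc := Finset.univ.filter fun z => z.2 = true

/-- The number of parallel runs. -/
def rns (s : List Bool) : ℕ := 512 * (qs s + 3) ^ 2 * s.length

/-- The length of the labels of the bits of the correction string. -/
def wln (s : List Bool) : ℕ := rns s * (2 * s.length + 3 * qs s)

/-- The exact quantum algorithm for the instance `s`: one Grover iteration for the following algorithm.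
Toss a fair coin; in the first case do `rns s` parallel runs of the two-query circuits with random copies
and accept iff no run has the outcome zero; in the second case accept iff the oracle contains
`wps s z`, where `z` is a uniformly random string of length `wln s`. There are `6` rounds of parallel
queries. -/
noncomputable def exact (s : List Bool) : XAlg := grov (mix (pow (one s) (rns s)) (coin s (wln s)))

end Pool.Agent.H78.XQ
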