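import Pool.Agent.H70.EI.Targets
import Pool.Agent.H78.XQ.Stmt

/-!
# Alternating exponential time in EQP and an infinite hierarchy: definitions for the proof
-/

set_option autoImplicit false

namespace Pool.Agent.H78.XQ

open Finset Pool.Agent.H6.NB Pool.Agent.H70.OQ Pool.Agent.H70.EH Pool.Agent.H70.EI

/-! ### Strings of given weight -/

/-- The number of places where `y` is true. -/
def nt {V : Type} [Fintype V] (y : V → Bool) : ℕ := (univ.filter fun v => y v = true).card

/-- The strings of weight `W` which extend `κ`. -/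
noncomputable def ws {V : Type} [Fintype V] [DecidableEq V] (κ : V → Option Bool) (W : ℕ) :
    Finset (V → Bool) := by
  classical exact univ.filter fun y => Pool.Agent.H68.AC.Ext κ y ∧ nt y = W

/-- The mean of `F` over the strings of weight `W` which extend `κ`. -/
noncomputable def wm {V : Type} [Fintype V] [DecidableEq V] (κ : V → Option Bool) (W : ℕ)
    (F : (V → Bool) → ℝ) : ℝ := (∑ y ∈ ws κ W, F y) / (ws κ W).card

/-- The number of places with the value `a`. -/
def nv {V : Type} [Fintype V] (κ : V → Option Bool) (a : Option Bool) : ℕ :=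
  (univ.filter fun v => κ v = a).card

/-! ### The content of a block -/

/-- The copies `P` say the bit `b` very clearly. -/
def SayX {U : Type} [Fintype U] (q l : ℕ) (b : Bool) (P : U → VV q → Bool) : Prop :=
  (b = false → avg q P ≤ 1 / 2 ^ l) ∧ (b = true → eps2 q ^ 2 / 8 ≤ avg q P)

/-- The probability that none of `R` runs has the outcome zero. -/
noncomputable def kap {U : Type} [Fintype U] (q R : ℕ) (P : U → VV q → Bool) : ℝ := (1 - avg q P) ^ R

/-- The correction string `h` has the weight which belongs to the answer `b`. -/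
def Fit {U : Type} [Fintype U] (q R r : ℕ) (b : Bool) (P : U → VV q → Bool)
    (h : (Fin r → Bool) → Bool) : Prop :=
  (nt h : ℝ) / 2 ^ r = (if b then 1 / 2 else 3 / 2) - kap q R P

/-- The block says the answer `b`. -/
def OkB (q l R r : ℕ) (b : Bool) (c : ((Fin (2 * l) → Bool) → VV q → Bool) × ((Fin r → Bool) → Bool)) :
    Prop := SayX q l b c.1 ∧ Fit q R r b c.1 c.2

open Classical in
/-- The distribution of the blocks with the answer `b`. -/
noncomputable def mB (q l R r : ℕ) (b : Bool)
    (c : ((Fin (2 * l) → Bool) → VV q → Bool) × ((Fin r → Bool) → Bool)) : ℝ :=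
  if OkB q l R r b c then (∏ u, mv b q (c.1 u)) / (ws (fun _ : Fin r → Bool => none) (nt c.2)).card else 0

/-- The uniform distribution of the blocks. -/
noncomputable def m0 (q l r : ℕ)
    (c : ((Fin (2 * l) → Bool) → VV q → Bool) × ((Fin r → Bool) → Bool)) : ℝ :=
  (∏ u, mv false q (c.1 u)) / 2 ^ 2 ^ r

/-- The correction string of the instance `s`. -/
def cst (O : List Bool → Bool) (s : List Bool) : (Fin (wln s) → Bool) → Bool :=
  fun z => O (wps s (List.ofFn z))

/-- The copies of the instance `s`. -/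
def cps (O : List Bool → Bool) (s : List Bool) : (Fin (2 * s.length) → Bool) → VV (qs s) → Bool :=
  fun u => cpx O s (List.ofFn u)

section

variable (V : ℕ → ATM) (W : ℕ → Hm) (ρ : ℕ → ℕ)

/-- The content of an instance: copies and correction string. -/
abbrev CP (p : ℕ × List Bool) : Type :=
  ((Fin (2 * (hm V p).length) → Bool) → VV (qs (hm V p)) → Bool) × ((Fin (wln (hm V p)) → Bool) → Bool)

/-- The values of a coordinate: copies and correction string of an instance, or a table. -/
def Cx : Ix → Type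
  | .inl p => CP V p
  | .inr a => Ct V W ρ (.inr a)

/-- The coordinates have finitely many values. -/
@[instance_reducible] noncomputable def fCx : (i : Ix) → Fintype (Cx V W ρ i)
  | .inl p => inferInstanceAs (Fintype (CP V p))
  | .inr a => inferInstanceAs (Fintype (Ct V W ρ (.inr a)))

noncomputable instance (i : Ix) : Fintype (Cx V W ρ i) := fCx V W ρ i

open Classical in
/-- The oracle is good for the index: the block says the answer; the machine `W a` errs. -/
def goodX (O : List Bool → Bool) : Ix → Prop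
  | .inl p => OkB (qs (hm V p)) (hm V p).length (rns (hm V p)) (wln (hm V p))
      (decide (p.2 ∈ (V p.1).lang O)) (cps O (hm V p), cst O (hm V p))
  | .inr a => ansr V W ρ O (.inr a)

/-- The uniform distribution of the coordinates. -/
noncomputable def wg0 : (i : Ix) → Cx V W ρ i → ℝ
  | .inl p => fun c => m0 (qs (hm V p)) (hm V p).length (wln (hm V p)) c
  | .inr a => fun _ => 1 / Fintype.card (Ct V W ρ (.inr a))

/-- The distribution of the coordinates with the answer `b`. -/
noncomputable def wgX (b : Bool) : (i : Ix) → Cx V W ρ i → ℝ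
  | .inl p => fun c => mB (qs (hm V p)) (hm V p).length (rns (hm V p)) (wln (hm V p)) b c
  | .inr a => fun _ => if b then 1 / Fintype.card (Ct V W ρ (.inr a)) else 0

/-- `O P` is the oracle built from the coordinates `P i`, `i ∈ E`. -/
structure IsX (E : Finset Ix) (O : (∀ i : {a // a ∈ E}, Cx V W ρ i.1) → List Bool → Bool) : Prop where
  blk : ∀ (P : ∀ i : {a // a ∈ E}, Cx V W ρ i.1) (p : ℕ × List Bool) (h : Sum.inl p ∈ E),
    cps (O P) (hm V p) = (P ⟨.inl p, h⟩ : CP V p).1
  cor : ∀ (P : ∀ i : {a // a ∈ E}, Cx V W ρ i.1) (p : ℕ × List Bool) (h : Sum.inl p ∈ E),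
    cst (O P) (hm V p) = (P ⟨.inl p, h⟩ : CP V p).2
  tab : ∀ (P : ∀ i : {a // a ∈ E}, Cx V W ρ i.1) (a : ℕ) (h : Sum.inr a ∈ E)
    (x : Nn (2 ^ ρ a) ((W a).1 + 1)), O P (false :: nstr (2 ^ ρ a) ((W a).1 + 1) x) =
      tb (P ⟨.inr a, h⟩ : Ct V W ρ (.inr a)) x
  blkU : ∀ (P : ∀ i : {a // a ∈ E}, Cx V W ρ i.1) (p : ℕ × List Bool) (h : Sum.inl p ∈ E)
    (u : Fin (2 * (hm V p).length) → Bool) (w : List Bool),
    (∃ b, ∀ c : VV (qs (hm V p)) → Bool, O (Function.update P ⟨.inl p, h⟩
      ((Function.update (P ⟨.inl p, h⟩ : CP V p).1 u c, (P ⟨.inl p, h⟩ : CP V p).2) : CP V p)) w = b) ∨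
    ∃ v, ∀ c : VV (qs (hm V p)) → Bool, O (Function.update P ⟨.inl p, h⟩
      ((Function.update (P ⟨.inl p, h⟩ : CP V p).1 u c, (P ⟨.inl p, h⟩ : CP V p).2) : CP V p)) w = c v
  corU : ∀ (P : ∀ i : {a // a ∈ E}, Cx V W ρ i.1) (p : ℕ × List Bool) (h : Sum.inl p ∈ E)
    (w : List Bool),
    (∃ b, ∀ c : (Fin (wln (hm V p)) → Bool) → Bool, O (Function.update P ⟨.inl p, h⟩
      (((P ⟨.inl p, h⟩ : CP V p).1, c) : CP V p)) w = b) ∨
    ∃ v, ∀ c : (Fin (wln (hm V p)) → Bool) → Bool, O (Function.update P ⟨.inl p, h⟩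
      (((P ⟨.inl p, h⟩ : CP V p).1, c) : CP V p)) w = c v
  tabU : ∀ (P : ∀ i : {a // a ∈ E}, Cx V W ρ i.1) (a : ℕ) (h : Sum.inr a ∈ E) (w : List Bool),
    (∀ c, O (Function.update P ⟨.inr a, h⟩ c) w = O P w) ∨
    ∃ x : Nn (2 ^ ρ a) ((W a).1 + 1), w = false :: nstr (2 ^ ρ a) ((W a).1 + 1) x

end

end Pool.Agent.H78.XQ
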